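import Pool.Agent.NH30.KH.Point
import Pool.Agent.NH30.KF.Special

/-!
# Images and special subvarieties of level `N p ^ k` (helper30)
-/

set_option autoImplicit false

open Function UpperHalfPlane MvPolynomial

namespace Pool.Agent.NH30.KH

open H294ZP Pool.Agent.W282.ZP
open Pool.Agent.NH30.KF (num den Lk FEq Cond fixPoly ev2 SpecialVariety NoAtypical exists_field
  indep_down)

/-- The projection to the `x`-coordinates of the set of solutions `(x, Y)` of the system, `x` affine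
and `Y` in a product of projective lines. -/
def projSet {n N : ℕ} {ι : Type} (F : ι → MvPolynomial ((Fin n ⊕ Fin N) × Bool) ℂ) :
    Set (Fin n → ℂ) :=
  {x | ∃ Y : Fin N → Option ℂ, ∀ j, eval (cd (Sum.elim (fun i => some (x i)) Y)) (F j) = 0}

theorem points {Λ : Type} [CommRing Λ] [Algebra Λ ℂ] {p B : ℕ} [Fact p.Prime] (ψ : Λ →+* ZMod p)
    {n N c r : ℕ} {ι : Type} {G : Polynomial (Polynomial ℤ)} (hGm : G.Monic)
    (hG : ∀ (τ w : ℍ) (a b c d : ℤ) (N : ℕ), 0 < N → N ≤ B * B → a * d - b * c = N →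
      (w : ℂ) * (c * τ + d) = a * τ + b → ev2 G (jj τ) (jj w) = 0)
    {h : Polynomial ℤ} (hh : h.Monic)
    (F : ι → MvPolynomial ((Fin n ⊕ Fin N) × Bool) Λ)
    {δ : ι → (Fin n ⊕ Fin N) → ℕ} (hF : ∀ j, MH (δ j) (F j))
    (hno : ∀ (ρ : Fin n → Fin n) (S J : Finset (Fin n)), Cond c ρ S J →
      ∃ (z : Fin n → ℤ) (L : ℕ), ∀ (k : Type) [Field k] [CharP k p],
      ¬ HasGrid k G (fun j => MvPolynomial.map ((ZMod.castHom (dvd_refl p) k).comp ψ) (F j)) ρ
        (S ∪ J) (fixPoly z h S) L)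
    (Z : SpecialVariety p B h n r) (x : Fin n → ℂ)
    (hx : x ∈ projSet fun j => MvPolynomial.map (algebraMap Λ ℂ) (F j))
    (hxZ : x ∈ Z.locus) (S : Finset (Fin n)) (hS : AlgebraicIndependent Λ (fun i : S => x i)) :
    S.card + c ≤ r := by
  have hp : p.Prime := Fact.out
  have hdet : ∀ i, 0 < (Z.mat i).det := by
    intro i
    obtain ⟨N, k, hN, -, hk⟩ := Z.level i
    rw [hk]
    exact mul_pos (by exact_mod_cast hN) (pow_pos (by exact_mod_cast hp.pos) k)
  obtain ⟨z, hz⟩ := hxZ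
  obtain ⟨Y, hY⟩ := hx
  refine point_bound ψ hGm hG hh F hF hno Z.cls Z.surj x Y hY ?_ ?_ S hS
  · intro i hi
    obtain ⟨ζ, w, g, k, e1, e2, e3, e4⟩ := Z.allowed i hi
    refine ⟨ζ, w, g 0 0, g 0 1, g 1 0, g 1 1, k, e1, ?_, e3, ?_⟩
    · rw [← e2, Matrix.det_fin_two]
    · rw [(hz i).1 hi, e4]
  · intro i i' l hi hi'
    obtain ⟨w, hw, hxw⟩ := (hz i).2 l hi
    obtain ⟨w', hw', hxw'⟩ := (hz i').2 l hi'
    obtain ⟨a, b, c', d', e1, e2⟩ := isogeny_rel (hdet i) hw hw'
    obtain ⟨N, k, hN, hNB, hk⟩ := Z.level i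
    obtain ⟨N', k', hN', hNB', hk'⟩ := Z.level i'
    refine ⟨w, w', a, b, c', d', N * N', k + k', Nat.mul_pos hN hN', Nat.mul_le_mul hNB hNB', ?_, e2,
      hxw, hxw'⟩
    rw [e1, hk, hk']
    push_cast
    ring

theorem exists_descent {σ : Type} (Λ Λ' : Subring ℂ) (hle : Λ' ≤ Λ) (P : MvPolynomial σ Λ)
    (hP : ∀ m, ((P.coeff m : Λ) : ℂ) ∈ Λ') :
    ∃ P' : MvPolynomial σ Λ', MvPolynomial.map (Subring.inclusion hle) P' = P := by
  classical
  refine ⟨P.support.sum fun m => monomial m (⟨((P.coeff m : Λ) : ℂ), hP m⟩ : Λ'), ?_⟩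
  rw [map_sum]
  conv_rhs => rw [← support_sum_monomial_coeff P]
  refine Finset.sum_congr rfl fun m _ => ?_
  rw [map_monomial]
  rfl

theorem MH.of_map {σ : Type} {Λ Λ' : Type*} [CommRing Λ] [CommRing Λ'] {δ : σ → ℕ}
    {P : MvPolynomial (σ × Bool) Λ} (f : Λ →+* Λ') (hf : Function.Injective f)
    (hP : MH δ (MvPolynomial.map f P)) : MH δ P := by
  intro m hm i
  exact hP m (by rw [support_map_of_injective P hf]; exact hm) i

/-- the criterion -/
theorem main {Λ : Subring ℂ} {p : ℕ} (hp : p.Prime) (ψ : Λ →+* ZMod p) {n N c B : ℕ} {ι : Type}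
    [Countable ι] {G : Polynomial (Polynomial ℤ)} (hGm : G.Monic)
    (hG : ∀ (τ w : ℍ) (a b c d : ℤ) (N : ℕ), 0 < N → N ≤ B * B → a * d - b * c = N →
      (w : ℂ) * (c * τ + d) = a * τ + b → ev2 G (jj τ) (jj w) = 0)
    {h : Polynomial ℤ} (hh : h.Monic) (F : ι → MvPolynomial ((Fin n ⊕ Fin N) × Bool) Λ)
    {δ : ι → (Fin n ⊕ Fin N) → ℕ} (hF : ∀ j, MH (δ j) (F j))
    (hno : ∀ (ρ : Fin n → Fin n) (S J : Finset (Fin n)), Cond c ρ S J →
      ∃ (z : Fin n → ℤ) (L : ℕ), ∀ (k : Type) [Field k] [CharP k p],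
      ¬ HasGrid k G (fun j => MvPolynomial.map ((ZMod.castHom (dvd_refl p) k).comp ψ) (F j)) ρ
        (S ∪ J) (fixPoly z h S) L) (X : Set (Fin n → ℂ))
    (hX : X ⊆ projSet fun j => MvPolynomial.map (algebraMap Λ ℂ) (F j)) :
    NoAtypical p B h Λ c X := by
  have : Fact p.Prime := ⟨hp⟩
  intro r Z
  refine ⟨?_, fun x hx S hS => points ψ hGm hG hh F hF hno Z x (hX hx.1) hx.2 S hS⟩
  intro A hA hcl hprime
  have hcβ : Countable (Σ j : ι, {m // m ∈ (F j).support}) := by infer_instance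
  let y : (Σ j : ι, {m // m ∈ (F j).support}) → ℂ := fun v => (((F v.1).coeff v.2.1 : Λ) : ℂ)
  have hle : Subring.closure (Set.range y) ≤ Λ := by
    rw [Subring.closure_le]
    rintro _ ⟨v, rfl⟩
    exact ((F v.1).coeff v.2.1).2
  obtain ⟨K, hK, hΛK⟩ := exists_field y
  obtain ⟨x, hxA, T, hT, hdim⟩ := Pool.Agent.W466.ZC.generic_dim K A hprime hcl
  have hdes : ∀ j, ∃ P' : MvPolynomial ((Fin n ⊕ Fin N) × Bool) (Subring.closure (Set.range y)),
      MvPolynomial.map (Subring.inclusion hle) P' = F j := by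
    intro j
    refine exists_descent Λ _ hle (F j) fun m => ?_
    by_cases hm : m ∈ (F j).support
    · exact Subring.subset_closure ⟨⟨j, m, hm⟩, rfl⟩
    · rw [notMem_support_iff.1 hm]
      exact Subring.zero_mem _
  choose F' hF' using hdes
  have hinc : Function.Injective (Subring.inclusion hle) := Subring.inclusion_injective hle
  have h2 := points (ψ.comp (Subring.inclusion hle)) hGm hG hh F'
    (fun j => MH.of_map (δ := δ j) (Subring.inclusion hle) hinc (by rw [hF' j]; exact hF j))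
    (by
      intro ρ S J hc
      obtain ⟨z, L, hzL⟩ := hno ρ S J hc
      refine ⟨z, L, fun k _ _ => ?_⟩
      have e1 : (fun j => MvPolynomial.map ((ZMod.castHom (dvd_refl p) k).comp
          (ψ.comp (Subring.inclusion hle))) (F' j)) =
          fun j => MvPolynomial.map ((ZMod.castHom (dvd_refl p) k).comp ψ) (F j) := by
        funext j
        rw [← hF' j, MvPolynomial.map_map]
        rfl
      rw [e1]
      exact hzL k) Z x (by
      obtain ⟨Y, hY⟩ := hX (hA hxA).1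
      refine ⟨Y, fun j => ?_⟩
      beta_reduce
      have e1 : MvPolynomial.map (algebraMap (Subring.closure (Set.range y)) ℂ) (F' j) =
          MvPolynomial.map (algebraMap Λ ℂ) (F j) := by
        rw [← hF' j, MvPolynomial.map_map]
        rfl
      rw [e1]
      exact hY j) (hA hxA).2 T (indep_down _ K hΛK _ hT)
  calc zdim A + (c : Cardinal) ≤ (T.card : Cardinal) + (c : Cardinal) := by gcongr
    _ = ((T.card + c : ℕ) : Cardinal) := by push_cast; rfl
    _ ≤ (r : Cardinal) := by exact_mod_cast h2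

end Pool.Agent.NH30.KH
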