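import Pool.Agent.NH30.KH.Fun
import Pool.Agent.NH30.KH.Special

/-!
# The closure of the image of a set under rational functions (helper30)
-/

set_option autoImplicit false

open MvPolynomial

namespace Pool.Agent.NH30.KH

open Pool.Agent.NH30.KF Pool.Agent.W282.ZP

/-- the value of the numerator of the `i`-th function with coefficients `a` at `y` -/
noncomputable def numer {n N : ℕ} {D : Fin n → Fin N → ℕ} (a : Idx D → ℂ) (i : Fin n)
    (y : Fin N → ℂ) : ℂ :=
  ∑ e : ∀ k, Fin (D i k + 1), a ⟨i, 0, e⟩ * ∏ k, y k ^ (e k : ℕ)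

/-- the value of the denominator of the `i`-th function with coefficients `a` at `y` -/
noncomputable def denom {n N : ℕ} {D : Fin n → Fin N → ℕ} (a : Idx D → ℂ) (i : Fin n)
    (y : Fin N → ℂ) : ℂ :=
  ∑ e : ∀ k, Fin (D i k + 1), a ⟨i, 1, e⟩ * ∏ k, y k ^ (e k : ℕ)

/-- The image of the set `V` under the functions with coefficients `a`. -/
def image {n N : ℕ} {D : Fin n → Fin N → ℕ} (a : Idx D → ℂ) (V : Set (Fin N → ℂ)) :
    Set (Fin n → ℂ) :=
  {x | ∃ y ∈ V, ∀ i, denom a i y ≠ 0 ∧ x i = numer a i y / denom a i y}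

/-- Nullstellensatz for multihomogeneous systems -/
theorem descend_point {n N : ℕ} {κ : Type} (P : κ → MvPolynomial ((Fin n ⊕ Fin N) × Bool) ℂ)
    (x : Fin n → ℂ) {K : Type} [Field K] (ι : ℂ →+* K) (Y : Fin N → Option K)
    (h : ∀ j, eval (cd (Sum.elim (fun i => some (ι (x i))) Y)) (MvPolynomial.map ι (P j)) = 0) :
    x ∈ projSet P := by
  classical
  let χ : Fin N → Bool := fun k => (Y k).isSome
  let cT : (Fin n ⊕ Fin N) × Bool → MvPolynomial (Fin N) ℂ := fun v =>
    Sum.elim (fun i => if v.2 then 1 else MvPolynomial.C (x i))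
      (fun k => if v.2 then (if χ k then 1 else 0) else (if χ k then MvPolynomial.X k else 1)) v.1
  let 𝔞 : Ideal (MvPolynomial (Fin N) ℂ) :=
    Ideal.span (Set.range fun j => eval₂ (MvPolynomial.C) cT (P j))
  let θ : MvPolynomial (Fin N) ℂ →+* K := eval₂Hom ι (fun k => num (Y k))
  have hθc : ∀ v, θ (cT v) = cd (Sum.elim (fun i => some (ι (x i))) Y) v := by
    rintro ⟨i | k, b⟩
    · cases b
      · show θ (MvPolynomial.C (x i)) = _
        exact eval₂Hom_C _ _ _
      · show θ 1 = _
        rw [map_one]
        rfl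
    · have h1 : (Y k).isSome = χ k := rfl
      cases b
      · show θ (if χ k then MvPolynomial.X k else 1) = num (Y k)
        by_cases hc : χ k = true
        · rw [if_pos hc]
          exact eval₂Hom_X' _ _ _
        · rw [if_neg hc, map_one]
          cases hY : Y k with
          | none => rfl
          | some y =>
            rw [hY] at h1
            simp only [Option.isSome_some] at h1
            exact absurd h1.symm hc
      · show θ (if χ k then 1 else 0) = den (Y k)
        by_cases hc : χ k = true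
        · rw [if_pos hc, map_one]
          cases hY : Y k with
          | none =>
            rw [hY] at h1
            simp only [Option.isSome_none] at h1
            rw [hc] at h1
            exact absurd h1 (by simp)
          | some y => rfl
        · rw [if_neg hc, map_zero]
          cases hY : Y k with
          | none => rfl
          | some y =>
            rw [hY] at h1
            simp only [Option.isSome_some] at h1
            exact absurd h1.symm hc
  have hker : 𝔞 ≤ RingHom.ker θ := by
    rw [Ideal.span_le]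
    rintro _ ⟨j, rfl⟩
    show θ _ = 0
    rw [eval₂_comp_left]
    have e1 : θ.comp MvPolynomial.C = ι := by
      ext a
      exact eval₂Hom_C _ _ _
    have e2 : θ ∘ cT = cd (Sum.elim (fun i => some (ι (x i))) Y) := funext hθc
    rw [e1, e2, ← eval_map]
    exact h j
  have hne : 𝔞 ≠ ⊤ := by
    intro htop
    have h1 : (1 : MvPolynomial (Fin N) ℂ) ∈ 𝔞 := by rw [htop]; trivial
    have h2 : θ 1 = 0 := hker h1
    rw [map_one] at h2
    exact one_ne_zero h2
  obtain ⟨y, hy⟩ : ∃ y : Fin N → ℂ, y ∈ zeroLocus ℂ 𝔞 := by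
    by_contra hcon
    push Not at hcon
    have h1 : zeroLocus ℂ 𝔞 = ∅ := Set.eq_empty_of_forall_notMem hcon
    have h2 := vanishingIdeal_zeroLocus_eq_radical (k := ℂ) (K := ℂ) 𝔞
    rw [h1, vanishingIdeal_empty] at h2
    exact hne (Ideal.radical_eq_top.1 h2.symm)
  refine ⟨fun k => if χ k then some (y k) else none, fun j => ?_⟩
  have h3 := hy (eval₂ (MvPolynomial.C) cT (P j)) (Ideal.subset_span ⟨j, rfl⟩)
  rw [aeval_def, Algebra.algebraMap_self, eval₂_id] at h3
  have h4 : (eval y) (eval₂ (MvPolynomial.C) cT (P j)) = eval (fun v => eval y (cT v)) (P j) := by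
    rw [eval₂_comp_left, ← eval₂_id]
    congr 1
    ext a
    simp
  rw [h4] at h3
  have h5 : (fun v => eval y (cT v)) =
      cd (Sum.elim (fun i => some (x i)) (fun k => if χ k then some (y k) else none)) := by
    funext v
    obtain ⟨i | k, b⟩ := v
    · cases b
      · show eval y (MvPolynomial.C (x i)) = _
        rw [eval_C]
        rfl
      · show eval y 1 = _
        rw [map_one]
        rfl
    · cases b
      · show eval y (if χ k then MvPolynomial.X k else 1) = num (if χ k then some (y k) else none)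
        split_ifs
        · rw [eval_X]
          rfl
        · rw [map_one]
          rfl
      · show eval y (if χ k then 1 else 0) = den (if χ k then some (y k) else none)
        split_ifs
        · rw [map_one]
          rfl
        · rw [map_zero]
          rfl
  rw [h5] at h3
  exact h3

/-- specialization of solutions -/
theorem place_step {n N : ℕ} {κ : Type} (P : κ → MvPolynomial ((Fin n ⊕ Fin N) × Bool) ℂ)
    {δ : κ → (Fin n ⊕ Fin N) → ℕ} (hP : ∀ j, MH (δ j) (P j)) {K : Type} [Field K]
    (F : MvPolynomial (Fin n) ℂ →+* K) (x : Fin n → ℂ) (hF : ∀ f, F f = 0 → eval x f = 0)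
    (Yg : Fin N → K)
    (h : ∀ j, eval (cd (Sum.elim (fun i => some (F (MvPolynomial.X i))) (fun k => some (Yg k))))
      (MvPolynomial.map (F.comp MvPolynomial.C) (P j)) = 0) : x ∈ projSet P := by
  obtain ⟨A, hA, hres⟩ := exists_place F (eval x : MvPolynomial (Fin n) ℂ →+* ℂ) hF
  let fC : ℂ →+* A := (F.comp MvPolynomial.C).codRestrict A.toSubring
    (fun a => hA (MvPolynomial.C a))
  let ι : ℂ →+* IsLocalRing.ResidueField A := (IsLocalRing.residue A).comp fC
  let Xg : Fin n ⊕ Fin N → Option K :=
    Sum.elim (fun i => some (F (MvPolynomial.X i))) (fun k => some (Yg k))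
  refine descend_point P x ι (fun k => red A (Xg (Sum.inr k))) fun j => ?_
  have h1 := eval_red A (hP j) fC Xg (h j)
  have h2 : (fun i => red A (Xg i)) =
      Sum.elim (fun i => some (ι (x i))) (fun k => red A (Xg (Sum.inr k))) := by
    funext v
    cases v with
    | inr k => rfl
    | inl i =>
      show red A (some (F (MvPolynomial.X i))) = some (ι (x i))
      rw [red_mem A (hA (MvPolynomial.X i))]
      congr 1
      have e1 := (hres (MvPolynomial.X i - MvPolynomial.C (x i))).2 (by
        rw [map_sub, eval_X, eval_C, sub_self])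
      have e2 : (⟨F (MvPolynomial.X i - MvPolynomial.C (x i)), hA _⟩ : A) =
          ⟨F (MvPolynomial.X i), hA _⟩ - fC (x i) := by
        apply Subtype.ext
        show F (MvPolynomial.X i - MvPolynomial.C (x i)) = _
        rw [map_sub]
        rfl
      rw [e2, map_sub, sub_eq_zero] at e1
      exact e1
  rw [h2] at h1
  exact h1

/-- The closure of a set of points for which there are solutions of a multihomogeneous
system consists of points for which there are solutions. -/
theorem zcl_subset_projSet {n N : ℕ} {κ : Type} (P : κ → MvPolynomial ((Fin n ⊕ Fin N) × Bool) ℂ)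
    {δ : κ → (Fin n ⊕ Fin N) → ℕ} (hP : ∀ j, MH (δ j) (P j)) (X : Set (Fin n → ℂ))
    (hX : ∀ x ∈ X, ∃ y : Fin N → ℂ,
      ∀ j, eval (cd (Sum.elim (fun i => some (x i)) (fun k => some (y k)))) (P j) = 0) :
    zcl X ⊆ projSet P := by
  classical
  intro x hx
  choose! ω hω using hX
  let S := X → ℂ
  let θ : MvPolynomial (Fin n) ℂ →+* S := RingHom.pi fun w : X => eval (w : Fin n → ℂ)
  have hθ : ∀ f : MvPolynomial (Fin n) ℂ, eval x f ≠ 0 → θ f ≠ 0 := by
    intro f hf h0
    apply hf
    apply hx
    rw [mem_idealOf]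
    intro w hw
    exact congrFun h0 ⟨w, hw⟩
  let M : Submonoid S := Submonoid.map θ (Submonoid.comap (eval x) (nonZeroDivisors ℂ))
  have hdis : Disjoint ((⊥ : Ideal S) : Set S) (M : Set S) := by
    rw [Set.disjoint_left]
    rintro s hs ⟨f, hf, rfl⟩
    have h1 : eval x f ≠ 0 := nonZeroDivisors.ne_zero hf
    exact hθ f h1 (by simpa using hs)
  obtain ⟨𝔮, hprime, -, hdis'⟩ := Ideal.exists_le_prime_disjoint _ M hdis
  let u : S →+* FractionRing (S ⧸ 𝔮) :=
    (algebraMap (S ⧸ 𝔮) (FractionRing (S ⧸ 𝔮))).comp (Ideal.Quotient.mk 𝔮)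
  have hu0 : ∀ s, u s = 0 ↔ s ∈ 𝔮 := by
    intro s
    show algebraMap (S ⧸ 𝔮) (FractionRing (S ⧸ 𝔮)) (Ideal.Quotient.mk 𝔮 s) = 0 ↔ _
    rw [FaithfulSMul.algebraMap_eq_zero_iff, Ideal.Quotient.eq_zero_iff_mem]
  refine place_step P hP (u.comp θ) x ?_ (fun k => u fun w => ω w k) fun j => ?_
  · intro f hf
    by_contra h0
    exact Set.disjoint_left.1 hdis' ((hu0 _).1 hf) ⟨f, mem_nonZeroDivisors_of_ne_zero h0, rfl⟩
  · let c : (Fin n ⊕ Fin N) × Bool → S := fun v w =>
      cd (Sum.elim (fun i => some (w.1 i)) (fun k => some (ω w k))) v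
    have e1 : cd (Sum.elim (fun i => some ((u.comp θ) (MvPolynomial.X i)))
        (fun k => some (u fun w => ω w k))) = u ∘ c := by
      funext v
      obtain ⟨i | k, b⟩ := v
      · cases b
        · show u (θ (MvPolynomial.X i)) = u _
          congr 1
          funext w
          show eval (w : Fin n → ℂ) (MvPolynomial.X i) = w.1 i
          rw [eval_X]
        · exact (map_one u).symm
      · cases b
        · rfl
        · exact (map_one u).symm
    let con : ℂ →+* S := RingHom.pi fun _ => RingHom.id ℂ
    have e2 : (u.comp θ).comp MvPolynomial.C = u.comp con := by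
      ext a
      show u (θ (MvPolynomial.C a)) = u (con a)
      congr 1
      funext w
      show eval (w : Fin n → ℂ) (MvPolynomial.C a) = a
      rw [eval_C]
    rw [e1, e2, eval_map, ← eval₂_comp_left]
    have e3 : eval₂ con c (P j) = 0 := by
      funext w
      have e4 := eval₂_comp_left (Pi.evalRingHom (fun _ : X => ℂ) w) con c (P j)
      have e5 : (Pi.evalRingHom (fun _ : X => ℂ) w).comp con = RingHom.id ℂ := by
        ext a
        rfl
      rw [e5, eval₂_id] at e4
      exact e4.trans (hω w w.2 j)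
    rw [e3, map_zero]

/-- The closure of the image of `V` -/
theorem zcl_image_subset {n N : ℕ} {D : Fin n → Fin N → ℕ} {κ : Type}
    {Q : κ → MvPolynomial (Fin N × Bool) ℂ} {δQ : κ → Fin N → ℕ} (hQ : ∀ j, MH (δQ j) (Q j))
    {V : Set (Fin N → ℂ)} (hV : ∀ y ∈ V, ∀ j, eval (cd fun k => some (y k)) (Q j) = 0)
    (a : Idx D → ℂ) : zcl (image a V) ⊆ projSet (imgSys D Q a) := by
  refine zcl_subset_projSet _ (imgSys_MH D hQ a) _ ?_
  rintro x ⟨y, hy, hx⟩
  refine ⟨y, fun j => ?_⟩
  cases j with
  | inl j =>
    have e1 := eval_graph_inl Q (fun i => mf (D i) fun e => a ⟨i, 0, e⟩)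
      (fun i => mf (D i) fun e => a ⟨i, 1, e⟩) j
      (Sum.elim (fun i => some (x i)) (fun k => some (y k)))
    exact e1.trans (hV y hy j)
  | inr i =>
    have e1 := eval_graph_inr Q (fun i => mf (D i) fun e => a ⟨i, 0, e⟩)
      (fun i => mf (D i) fun e => a ⟨i, 1, e⟩) i
      (Sum.elim (fun i => some (x i)) (fun k => some (y k)))
    refine e1.trans ?_
    have e2 : ∀ u : (∀ k, Fin (D i k + 1)) → ℂ,
        eval (cd fun k => some (y k)) (mf (D i) u) = ∑ e, u e * ∏ k, y k ^ (e k : ℕ) := by
      intro u
      rw [← eval₂_id, eval₂_mf]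
      refine Finset.sum_congr rfl fun e _ => ?_
      rw [RingHom.id_apply]
      congr 1
      refine Finset.prod_congr rfl fun k _ => ?_
      show y k ^ (e k : ℕ) * 1 ^ (D i k - (e k : ℕ)) = _
      rw [one_pow, mul_one]
    show x i * eval (cd fun k => some (y k)) (mf (D i) _) -
      1 * eval (cd fun k => some (y k)) (mf (D i) _) = 0
    rw [e2, e2]
    show x i * denom a i y - 1 * numer a i y = 0
    rw [(hx i).2, div_mul_cancel₀ _ (hx i).1]
    ring

end Pool.Agent.NH30.KH
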