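import Pool.Agent.NH30.KH.Hom

/-!
# Multihomogeneous polynomials with given coefficients, and general rational functions (helper30)
-/

set_option autoImplicit false

open Function MvPolynomial

namespace Pool.Agent.NH30.KH

open Pool.Agent.NH30.KF

theorem MH.add {σ : Type} {Λ : Type*} [CommRing Λ] {δ : σ → ℕ}
    {P P' : MvPolynomial (σ × Bool) Λ} (hP : MH δ P) (hP' : MH δ P') : MH δ (P + P') := by
  classical
  intro m hm i
  rcases Finset.mem_union.1 (support_add hm) with h | h
  · exact hP m h i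
  · exact hP' m h i

theorem MH.sum {σ : Type} {Λ : Type*} [CommRing Λ] {δ : σ → ℕ} {ι : Type*} (s : Finset ι)
    (P : ι → MvPolynomial (σ × Bool) Λ) (hP : ∀ e ∈ s, MH δ (P e)) : MH δ (∑ e ∈ s, P e) := by
  classical
  induction s using Finset.induction_on with
  | empty =>
    intro m hm
    simp at hm
  | insert a s ha ih =>
    rw [Finset.sum_insert ha]
    exact (hP a (Finset.mem_insert_self a s)).add
      (ih fun e he => hP e (Finset.mem_insert_of_mem he))

/-- the form with given coefficients -/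
noncomputable def mf {Λ : Type*} [CommRing Λ] {N : ℕ} (D : Fin N → ℕ)
    (u : (∀ k, Fin (D k + 1)) → Λ) : MvPolynomial (Fin N × Bool) Λ :=
  ∑ e : ∀ k, Fin (D k + 1), monomial (homExp D (Finsupp.equivFunOnFinite.symm fun k => (e k : ℕ)))
    (u e)

theorem mf_MH {Λ : Type*} [CommRing Λ] {N : ℕ} (D : Fin N → ℕ)
    (u : (∀ k, Fin (D k + 1)) → Λ) : MH D (mf D u) := by
  classical
  refine MH.sum _ _ fun e _ => ?_
  intro m hm i
  have h3 := support_monomial_subset hm
  rw [Finset.mem_singleton] at h3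
  subst h3
  have h4 := (e i).2
  simp only [homExp, Finsupp.equivFunOnFinite_symm_apply_apply]
  simp only [Bool.false_eq_true, if_false, if_true]
  omega

theorem eval₂_mf {Λ k : Type*} [CommRing Λ] [CommRing k] (f : Λ →+* k) {N : ℕ} (D : Fin N → ℕ)
    (u : (∀ k, Fin (D k + 1)) → Λ) (c : Fin N × Bool → k) :
    eval₂ f c (mf D u) = ∑ e : ∀ k, Fin (D k + 1),
      f (u e) * ∏ k, (c (k, false) ^ (e k : ℕ) * c (k, true) ^ (D k - (e k : ℕ))) := by
  classical
  unfold mf
  rw [MvPolynomial.eval₂_sum]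
  refine Finset.sum_congr rfl fun e _ => ?_
  rw [eval₂_monomial, Finsupp.prod_fintype _ _ (fun _ => pow_zero _), Fintype.prod_prod_type]
  congr 1
  refine Finset.prod_congr rfl fun i _ => ?_
  rw [Fintype.prod_bool]
  simp only [homExp, Finsupp.equivFunOnFinite_symm_apply_apply, if_true, Bool.false_eq_true,
    if_false]
  rw [mul_comm]

theorem map_mf {Λ k : Type*} [CommRing Λ] [CommRing k] (f : Λ →+* k) {N : ℕ} (D : Fin N → ℕ)
    (u : (∀ k, Fin (D k + 1)) → Λ) : MvPolynomial.map f (mf D u) = mf D (fun e => f (u e)) := by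
  unfold mf
  rw [map_sum]
  refine Finset.sum_congr rfl fun e _ => ?_
  rw [map_monomial]

theorem mf_C_mul {Λ : Type*} [CommRing Λ] {N : ℕ} (D : Fin N → ℕ) (a : Λ)
    (u : (∀ k, Fin (D k + 1)) → Λ) : mf D (fun e => a * u e) = MvPolynomial.C a * mf D u := by
  unfold mf
  rw [Finset.mul_sum]
  refine Finset.sum_congr rfl fun e _ => ?_
  rw [C_mul_monomial]

/-- the coefficients of a product of powers of linear forms -/
noncomputable def linC {N : ℕ} (D : Fin N → ℕ) (β : Fin N → ℤ) (e : ∀ k, Fin (D k + 1)) : ℤ :=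
  ∏ k, ((Polynomial.X - Polynomial.C (β k)) ^ D k).coeff (e k : ℕ)

theorem hom_pow {k : Type*} [CommRing k] (b : ℤ) (D : ℕ) (x y : k) :
    ∑ e : Fin (D + 1), ((((Polynomial.X - Polynomial.C b : Polynomial ℤ) ^ D).coeff (e : ℕ) : ℤ) : k) *
      (x ^ (e : ℕ) * y ^ (D - (e : ℕ))) = (x - b * y) ^ D := by
  rw [sub_eq_add_neg x, add_pow x, ← Fin.sum_univ_eq_sum_range (fun m => x ^ m *
    (-((b : k) * y)) ^ (D - m) * ((D.choose m : ℕ) : k))]
  refine Finset.sum_congr rfl fun e _ => ?_
  rw [sub_eq_add_neg, ← Polynomial.C_neg, Polynomial.coeff_X_add_C_pow]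
  push_cast
  rw [neg_mul_eq_neg_mul, mul_pow]
  ring

theorem eval_linC {k : Type*} [CommRing k] {N : ℕ} (D : Fin N → ℕ) (β : Fin N → ℤ)
    (c : Fin N × Bool → k) :
    eval c (mf D fun e => ((linC D β e : ℤ) : k)) =
      ∏ i, (c (i, false) - β i * c (i, true)) ^ D i := by
  classical
  rw [← eval₂_id, eval₂_mf]
  have h1 := Finset.prod_univ_sum (κ := fun i => Fin (D i + 1)) (fun i => Finset.univ)
    (fun i (e : Fin (D i + 1)) =>
      ((((Polynomial.X - Polynomial.C (β i) : Polynomial ℤ) ^ D i).coeff (e : ℕ) : ℤ) : k) *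
      (c (i, false) ^ (e : ℕ) * c (i, true) ^ (D i - (e : ℕ))))
  rw [Fintype.piFinset_univ] at h1
  rw [← Finset.prod_congr rfl fun i _ => hom_pow (β i) (D i) (c (i, false)) (c (i, true)), h1]
  refine Finset.sum_congr rfl fun e _ => ?_
  rw [RingHom.id_apply, linC, Int.cast_prod, ← Finset.prod_mul_distrib]

/-- Systems of graphs of functions, which specialize to constants in general position, have no grids
outside a hypersurface. -/
theorem graph_general {Λ k₀ : Type} [CommRing Λ] [IsDomain Λ] [Field k₀] [CharZero k₀]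
    (θ : Λ →+* k₀) {n N c : ℕ} {κ : Type}
    {Q : κ → MvPolynomial (Fin N × Bool) Λ} {A B : Fin n → MvPolynomial (Fin N × Bool) Λ}
    {δQ : κ → Fin N → ℕ} {δ : Fin n → Fin N → ℕ} (hQ : ∀ j, MH (δQ j) (Q j))
    (hAm : ∀ i, MH (δ i) (A i)) (hBm : ∀ i, MH (δ i) (B i))
    {G : Polynomial (Polynomial ℤ)} (hG : G.Monic) (sq : ℕ → ℤ)
    (hsq : ∀ a b, a ≠ b → ∀ (k : Type) [Field k] [CharZero k]
      (y : Option k), Lp G (some (sq a : k)) y → Lp G (some (sq b : k)) y → False)
    {h : Polynomial ℤ} (hh : h.Monic) (hhsq : ∀ a, h.eval (sq a) ≠ 0)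
    (hA : ∀ i : Fin n, MvPolynomial.map θ (A i) =
      MvPolynomial.C ((sq i : ℤ) : k₀) * MvPolynomial.map θ (B i))
    (hgen : ∀ (K : Type) [Field K] (g : Λ →+* K), (∀ a, g a = 0 ↔ θ a = 0) →
      ∀ Y : Fin N → Option K, (∀ j, eval (cd Y) (MvPolynomial.map g (Q j)) = 0) →
      ∀ T : Finset (Fin n), (∀ i ∈ T, eval (cd Y) (MvPolynomial.map g (B i)) = 0) →
        T.card + c ≤ n) :
    ∃ (z : Fin n → ℤ) (R : Λ), R ≠ 0 ∧ ∀ (k : Type) [Field k] (f : Λ →+* k), f R ≠ 0 →
      ∀ (ρ : Fin n → Fin n) (S J : Finset (Fin n)), Cond c ρ S J →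
        ¬ HasGrid k G (fun j => MvPolynomial.map f (graphSys Q A B j)) ρ (S ∪ J)
          (fixPoly z h S) (n * (c + n)) := by
  classical
  have key : ∀ v : (Fin n → Fin n) × Finset (Fin n) × Finset (Fin n), ∃ R : Λ, R ≠ 0 ∧
      (Cond c v.1 v.2.1 v.2.2 → ∀ (k : Type) [Field k] (f : Λ →+* k), f R ≠ 0 →
        ¬ HasGrid k G (fun j => MvPolynomial.map f (graphSys Q A B j)) v.1 (v.2.1 ∪ v.2.2)
          (fixPoly (fun i => sq (n + i)) h v.2.1) (n * (c + n))) := by
    rintro ⟨ρ, S, J⟩
    by_cases hc : Cond c ρ S J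
    swap
    · exact ⟨1, one_ne_zero, fun h => absurd h hc⟩
    obtain ⟨R, hR0, hR⟩ := elim (Λ := Λ) G (graphSys Q A B) ρ (S ∪ J)
      (fixPoly (fun i => sq (n + i)) h S) (n * (c + n)) (by
        intro L _ f hf
        exact noGrid_functions f θ (fun a ha => by
          have : a = 0 := hf (by rw [ha, map_zero])
          rw [this, map_zero]) hQ hAm hBm hG sq hsq hh hhsq hA hgen ρ S J hc)
    exact ⟨R, hR0, fun _ => hR⟩
  choose R hR0 hR using key
  refine ⟨fun i => sq (n + i), ∏ v, R v, Finset.prod_ne_zero_iff.2 fun v _ => hR0 v, ?_⟩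
  intro k _ f hf ρ S J hcond
  have h1 : f (R (ρ, S, J)) ≠ 0 := by
    intro h0
    apply hf
    rw [map_prod]
    exact Finset.prod_eq_zero (Finset.mem_univ (ρ, S, J)) h0
  exact hR (ρ, S, J) hcond k f h1

/-- The indices of the coefficients of `n` rational functions of multidegrees `D i`: the numerators
have the index `0`, the denominators have the index `1`. -/
abbrev Idx {n N : ℕ} (D : Fin n → Fin N → ℕ) : Type :=
  Σ i : Fin n, Fin 2 × (∀ k, Fin (D i k + 1))

/-- the system for the closure of the image of the set with equations `Q` under the functions with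
coefficients `a` -/
noncomputable def imgSys {Λ : Type*} [CommRing Λ] {n N : ℕ} (D : Fin n → Fin N → ℕ) {κ : Type}
    (Q : κ → MvPolynomial (Fin N × Bool) Λ) (a : Idx D → Λ) :
    κ ⊕ Fin n → MvPolynomial ((Fin n ⊕ Fin N) × Bool) Λ :=
  graphSys Q (fun i => mf (D i) fun e => a ⟨i, 0, e⟩) (fun i => mf (D i) fun e => a ⟨i, 1, e⟩)

theorem imgSys_MH {Λ : Type*} [CommRing Λ] {n N : ℕ} (D : Fin n → Fin N → ℕ) {κ : Type}
    {Q : κ → MvPolynomial (Fin N × Bool) Λ} {δQ : κ → Fin N → ℕ} (hQ : ∀ j, MH (δQ j) (Q j))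
    (a : Idx D → Λ) (j : κ ⊕ Fin n) : MH (graphDeg δQ D j) (imgSys D Q a j) :=
  graph_MH hQ (fun i => mf_MH (D i) _) (fun i => mf_MH (D i) _) j

theorem map_imgSys {Λ k : Type*} [CommRing Λ] [CommRing k] (f : Λ →+* k) {n N : ℕ}
    (D : Fin n → Fin N → ℕ) {κ : Type} (Q : κ → MvPolynomial (Fin N × Bool) Λ) (a : Idx D → Λ)
    (j : κ ⊕ Fin n) :
    MvPolynomial.map f (imgSys D Q a j) =
      imgSys D (fun j => MvPolynomial.map f (Q j)) (fun v => f (a v)) j := by
  unfold imgSys
  rw [map_graph]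
  congr 1
  · funext i
    exact map_mf f _ _
  · funext i
    exact map_mf f _ _

/-- General functions on a set of dimension at most `n - c` have no grids. -/
theorem img_general {Λ₁ : Type} [CommRing Λ₁] [IsDomain Λ₁] [CharZero Λ₁] {n N c : ℕ}
    (D : Fin n → Fin N → ℕ) (hcn : c ≤ n)
    (P : {I : Finset (Fin N) // I.card + c = n + 1} → MvPolynomial (Fin N) Λ₁)
    (hP0 : ∀ I, P I ≠ 0) (hPv : ∀ I, (P I).vars ⊆ I.1)
    {G : Polynomial (Polynomial ℤ)} (hG : G.Monic) (h : Polynomial ℤ) (hh : h.Monic) :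
    ∃ (z : Fin n → ℤ) (R : MvPolynomial (Idx D) Λ₁), R ≠ 0 ∧
      ∀ (k : Type) [Field k] (f : Λ₁ →+* k) (a : Idx D → k), eval₂ f a R ≠ 0 →
      ∀ (ρ : Fin n → Fin n) (S J : Finset (Fin n)), Cond c ρ S J →
        ¬ HasGrid k G (imgSys D (fun I => MvPolynomial.map f (hom (P I))) a) ρ (S ∪ J)
          (fixPoly z h S) (n * (c + n)) := by
  classical
  obtain ⟨K₀, hK₀⟩ := exists_large h hh
  obtain ⟨sq, hsqK, hsq⟩ := exists_unlinked hG K₀
  let Λ := MvPolynomial (Idx D) Λ₁
  -- the parameters of the degenerate member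
  let PP : (((Fin N → Fin n) × {I : Finset (Fin N) // I.card + c = n + 1}) ⊕
      {v : Fin n × Fin n × Fin N // v.1 ≠ v.2.1}) → MvPolynomial (Fin n × Fin N) Λ₁ :=
    Sum.elim (fun v => rename (fun k => (v.1 k, k)) (P v.2))
      (fun v => MvPolynomial.X (v.1.1, v.1.2.2) - MvPolynomial.X (v.1.2.1, v.1.2.2))
  obtain ⟨β, hβ⟩ := exists_point PP (by
    rintro (⟨σ, I⟩ | ⟨⟨i, i', k⟩, hne⟩)
    · intro h0
      have hinj : Function.Injective (fun k => (σ k, k) : Fin N → Fin n × Fin N) :=
        fun a b hab => (Prod.mk.inj hab).2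
      exact hP0 I (rename_injective _ hinj (by rw [map_zero]; exact h0))
    · intro h0
      have h1 : (MvPolynomial.X (i, k) : MvPolynomial (Fin n × Fin N) Λ₁) = MvPolynomial.X (i', k) :=
        sub_eq_zero.1 h0
      exact hne (Prod.mk.inj (MvPolynomial.X_injective h1)).1)
  have hβ1 : ∀ (σ : Fin N → Fin n) (I : {I : Finset (Fin N) // I.card + c = n + 1}),
      eval (fun k => ((β (σ k, k) : ℤ) : Λ₁)) (P I) ≠ 0 := by
    intro σ I
    have h1 := hβ (Sum.inl (σ, I))
    simp only [PP, Sum.elim_inl, eval_rename] at h1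
    exact h1
  have hβ2 : ∀ (i i' : Fin n) (k : Fin N), β (i, k) = β (i', k) → i = i' := by
    intro i i' k he
    by_contra hne
    have h1 := hβ (Sum.inr ⟨(i, i', k), hne⟩)
    simp only [PP, Sum.elim_inr, map_sub, eval_X] at h1
    exact h1 (by rw [he, sub_self])
  let t : Idx D → ℤ := fun v =>
    if v.2.1 = 0 then sq v.1 * linC (D v.1) (fun k => β (v.1, k)) v.2.2
    else linC (D v.1) (fun k => β (v.1, k)) v.2.2
  let θ : Λ →+* FractionRing Λ₁ :=
    eval₂Hom (algebraMap Λ₁ (FractionRing Λ₁)) (fun v => ((t v : ℤ) : FractionRing Λ₁))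
  have hchar0 : CharZero (FractionRing Λ₁) :=
    charZero_of_injective_algebraMap (IsFractionRing.injective Λ₁ (FractionRing Λ₁))
  have hθX : ∀ v, θ (MvPolynomial.X v) = ((t v : ℤ) : FractionRing Λ₁) := fun v =>
    eval₂Hom_X' _ _ _
  have hθC : ∀ a : Λ₁, θ (MvPolynomial.C a) = algebraMap Λ₁ (FractionRing Λ₁) a := fun a =>
    eval₂Hom_C _ _ _
  obtain ⟨z, R, hR0, hR⟩ := graph_general (c := c) θ
    (Q := fun I => MvPolynomial.map (MvPolynomial.C : Λ₁ →+* Λ) (hom (P I)))
    (A := fun i => mf (D i) fun e => MvPolynomial.X ⟨i, 0, e⟩)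
    (B := fun i => mf (D i) fun e => MvPolynomial.X ⟨i, 1, e⟩)
    (fun I => (hom_MH (P I)).map _) (fun i => mf_MH (D i) _) (fun i => mf_MH (D i) _)
    hG sq hsq hh (fun a => hK₀ _ (hsqK a)) (by
      intro i
      rw [map_mf, map_mf, ← mf_C_mul]
      congr 1
      funext e
      rw [hθX, hθX]
      simp [t]) (by
      intro K _ g hg Y hY T hT
      by_contra hlt
      push Not at hlt
      obtain ⟨T', hT'T, hT'⟩ := Finset.exists_subset_card_eq (show n + 1 - c ≤ T.card by omega)
      have hintK : ∀ m m' : ℤ, (m : K) = m' → m = m' := by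
        intro m m' hm
        have e1 : g ((m - m' : ℤ) : Λ) = 0 := by
          rw [map_intCast]
          push_cast
          rw [hm, sub_self]
        have e2 := (hg _).1 e1
        rw [map_intCast] at e2
        have e3 : m - m' = 0 := by exact_mod_cast e2
        omega
      have hgX : ∀ v, g (MvPolynomial.X v) = ((t v : ℤ) : K) := by
        intro v
        have e1 : θ (MvPolynomial.X v - ((t v : ℤ) : Λ)) = 0 := by
          rw [map_sub, hθX, map_intCast, sub_self]
        have e2 := (hg _).2 e1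
        rw [map_sub, map_intCast, sub_eq_zero] at e2
        exact e2
      have hk : ∀ i : T', ∃ k : Fin N, Y k = some ((β (i.1, k) : ℤ) : K) := by
        intro i
        have e1 := hT i.1 (hT'T i.2)
        rw [map_mf] at e1
        have e2 : (fun e => g (MvPolynomial.X (⟨i.1, 1, e⟩ : Idx D))) =
            fun e => ((linC (D i.1) (fun k => β (i.1, k)) e : ℤ) : K) := by
          funext e
          rw [hgX]
          simp [t]
        rw [e2, eval_linC, Finset.prod_eq_zero_iff] at e1
        obtain ⟨k, -, hk⟩ := e1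
        have e3 := eq_zero_of_pow_eq_zero hk
        refine ⟨k, ?_⟩
        cases hYk : Y k with
        | none =>
          simp only [cd, hYk, num, den] at e3
          simp at e3
        | some y =>
          simp only [cd, hYk, num, den] at e3
          simp only [Bool.false_eq_true, if_false, if_true, mul_one] at e3
          rw [sub_eq_zero.1 e3]
      choose kf hkf using hk
      have hkinj : Function.Injective kf := by
        intro i i' hii
        have e1 := hkf i
        rw [hii, hkf i'] at e1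
        exact Subtype.ext (hβ2 _ _ _ (hintK _ _ (Option.some.inj e1))).symm
      let I : {I : Finset (Fin N) // I.card + c = n + 1} := ⟨Finset.univ.image kf, by
        rw [Finset.card_image_of_injective _ hkinj, Finset.card_univ, Fintype.card_coe, hT']
        omega⟩
      have hne : T'.Nonempty := by
        rw [← Finset.card_pos, hT']
        omega
      let σ : Fin N → Fin n := Function.extend kf (fun i => i.1) (fun _ => hne.choose)
      have hσ : ∀ i, σ (kf i) = i.1 := fun i => hkinj.extend_apply _ _ i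
      have hYI : ∀ k ∈ I.1, Y k = some ((β (σ k, k) : ℤ) : K) := by
        intro k hk
        obtain ⟨i, -, rfl⟩ := Finset.mem_image.1 hk
        rw [hσ, hkf]
      have e1 := hY I
      beta_reduce at e1
      rw [MvPolynomial.map_map, eval_map, eval_hom, eval₂_congr_vars _ (P I) _
        (fun k => ((β (σ k, k) : ℤ) : K)), eval₂_eval _ (P I) (fun k => β (σ k, k))] at e1
      · have e2 := (hg _).1 e1
        rw [hθC] at e2
        exact hβ1 σ I ((IsFractionRing.injective Λ₁ (FractionRing Λ₁)) (by rw [e2, map_zero]))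
      · intro k hk
        simp [cd, hYI k (hPv I hk), num]
      · intro k hk
        simp [cd, hYI k (hPv I (mem_vars_of_degreeOf _ _ hk)), den])
  refine ⟨z, R, hR0, ?_⟩
  intro k _ f a ha ρ S J hc
  have h1 := hR k (eval₂Hom f a) ha ρ S J hc
  have h2 : (fun j => MvPolynomial.map (eval₂Hom f a) (graphSys
      (fun I => MvPolynomial.map (MvPolynomial.C : Λ₁ →+* Λ) (hom (P I)))
      (fun i => mf (D i) fun e => MvPolynomial.X ⟨i, 0, e⟩)
      (fun i => mf (D i) fun e => MvPolynomial.X ⟨i, 1, e⟩) j)) =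
      imgSys D (fun I => MvPolynomial.map f (hom (P I))) a := by
    funext j
    have h3 := map_imgSys (eval₂Hom f a : Λ →+* k) D
      (fun I => MvPolynomial.map (MvPolynomial.C : Λ₁ →+* Λ) (hom (P I))) MvPolynomial.X j
    refine h3.trans ?_
    have e1 : (eval₂Hom f a : Λ →+* k).comp MvPolynomial.C = f := by
      ext x
      exact eval₂Hom_C _ _ _
    have e2 : (fun v => (eval₂Hom f a : Λ →+* k) (MvPolynomial.X v)) = a := by
      funext v
      exact eval₂Hom_X' _ _ _
    rw [e2]
    congr 1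
    funext I
    rw [MvPolynomial.map_map, e1]
  rw [h2] at h1
  exact h1

end Pool.Agent.NH30.KH
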