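import Pool.Agent.NH30.KH.Sys
import Pool.Agent.NH30.KF.Gen

/-!
# Systems of graphs of rational functions without grids (helper30)
-/

set_option autoImplicit false

open Function MvPolynomial

namespace Pool.Agent.NH30.KH

open Pool.Agent.NH30.KF

/-! ### multihomogeneous polynomials -/

theorem MH.mul {σ : Type} {Λ : Type*} [CommRing Λ] {δ δ' : σ → ℕ}
    {P P' : MvPolynomial (σ × Bool) Λ} (hP : MH δ P) (hP' : MH δ' P') : MH (δ + δ') (P * P') := by
  classical
  intro m hm i
  obtain ⟨a, ha, b, hb, rfl⟩ := Finset.mem_add.1 (support_mul P P' hm)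
  have h1 := hP a ha i
  have h2 := hP' b hb i
  simp only [Finsupp.add_apply, Pi.add_apply]
  omega

theorem MH.sub {σ : Type} {Λ : Type*} [CommRing Λ] {δ : σ → ℕ}
    {P P' : MvPolynomial (σ × Bool) Λ} (hP : MH δ P) (hP' : MH δ P') : MH δ (P - P') := by
  classical
  intro m hm i
  rcases Finset.mem_union.1 (support_sub (σ × Bool) P P' hm) with h | h
  · exact hP m h i
  · exact hP' m h i

theorem MH.X {σ : Type} [DecidableEq σ] {Λ : Type*} [CommRing Λ] (i : σ) (b : Bool) :
    MH (Pi.single i 1) (MvPolynomial.X (i, b) : MvPolynomial (σ × Bool) Λ) := by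
  intro m hm j
  rcases subsingleton_or_nontrivial Λ with hs | hn
  · rw [mem_support_iff] at hm
    exact absurd (Subsingleton.elim _ _) hm
  · rw [support_X, Finset.mem_singleton] at hm
    subst hm
    by_cases hij : j = i
    · subst hij
      rw [Pi.single_eq_same]
      cases b
      · rw [Finsupp.single_eq_same, Finsupp.single_eq_of_ne (by simp), add_zero]
      · rw [Finsupp.single_eq_of_ne (by simp), Finsupp.single_eq_same, zero_add]
    · rw [Pi.single_eq_of_ne hij, Finsupp.single_eq_of_ne (by simp [hij]),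
        Finsupp.single_eq_of_ne (by simp [hij]), add_zero]

theorem MH.rename_inr {n N : ℕ} {Λ : Type*} [CommRing Λ] {δ : Fin N → ℕ}
    {P : MvPolynomial (Fin N × Bool) Λ} (hP : MH δ P) :
    MH (Sum.elim (fun _ : Fin n => 0) δ)
      (rename (Prod.map Sum.inr id : Fin N × Bool → (Fin n ⊕ Fin N) × Bool) P) := by
  classical
  have hinj : Function.Injective (Prod.map Sum.inr id : Fin N × Bool → (Fin n ⊕ Fin N) × Bool) :=
    Sum.inr_injective.prodMap injective_id
  intro m hm i
  rw [support_rename_of_injective hinj, Finset.mem_image] at hm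
  obtain ⟨m₀, hm₀, rfl⟩ := hm
  cases i with
  | inl i =>
    rw [Finsupp.mapDomain_of_notMem_range _ _ (by simp), Finsupp.mapDomain_of_notMem_range _ _ (by simp)]
    rfl
  | inr i =>
    have e : ∀ b, (Finsupp.mapDomain (Prod.map Sum.inr id : Fin N × Bool → (Fin n ⊕ Fin N) × Bool)
        m₀) (Sum.inr i, b) = m₀ (i, b) := fun b =>
      Finsupp.mapDomain_apply hinj m₀ (i, b)
    rw [e, e]
    exact hP m₀ hm₀ i

/-- The system for the points `(x, y)`, `y` on the base `Q` and `x_i = A_i (y) / B_i (y)`. -/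
noncomputable def graphSys {Λ : Type*} [CommRing Λ] {n N : ℕ} {κ : Type}
    (Q : κ → MvPolynomial (Fin N × Bool) Λ) (A B : Fin n → MvPolynomial (Fin N × Bool) Λ) :
    κ ⊕ Fin n → MvPolynomial ((Fin n ⊕ Fin N) × Bool) Λ
  | Sum.inl j => rename (Prod.map Sum.inr id) (Q j)
  | Sum.inr i => MvPolynomial.X (Sum.inl i, false) * rename (Prod.map Sum.inr id) (B i) -
      MvPolynomial.X (Sum.inl i, true) * rename (Prod.map Sum.inr id) (A i)

/-- the multidegrees of the system -/
def graphDeg {n N : ℕ} {κ : Type} (δQ : κ → Fin N → ℕ) (δ : Fin n → Fin N → ℕ) :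
    κ ⊕ Fin n → (Fin n ⊕ Fin N) → ℕ
  | Sum.inl j => Sum.elim (fun _ => 0) (δQ j)
  | Sum.inr i => Pi.single (Sum.inl i) 1 + Sum.elim (fun _ => 0) (δ i)

theorem graph_MH {Λ : Type*} [CommRing Λ] {n N : ℕ} {κ : Type}
    {Q : κ → MvPolynomial (Fin N × Bool) Λ} {A B : Fin n → MvPolynomial (Fin N × Bool) Λ}
    {δQ : κ → Fin N → ℕ} {δ : Fin n → Fin N → ℕ} (hQ : ∀ j, MH (δQ j) (Q j))
    (hA : ∀ i, MH (δ i) (A i)) (hB : ∀ i, MH (δ i) (B i)) (j : κ ⊕ Fin n) :
    MH (graphDeg δQ δ j) (graphSys Q A B j) := by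
  cases j with
  | inl j => exact (hQ j).rename_inr
  | inr i =>
    have h1 := (MH.X (Λ := Λ) (Sum.inl i : Fin n ⊕ Fin N) false).mul ((hB i).rename_inr)
    have h2 := (MH.X (Λ := Λ) (Sum.inl i : Fin n ⊕ Fin N) true).mul ((hA i).rename_inr)
    exact h1.sub h2

theorem eval_graph_inl {k : Type*} [CommRing k] {n N : ℕ} {κ : Type}
    (Q : κ → MvPolynomial (Fin N × Bool) k) (A B : Fin n → MvPolynomial (Fin N × Bool) k) (j : κ)
    (X : Fin n ⊕ Fin N → Option k) :
    eval (cd X) (graphSys Q A B (Sum.inl j)) = eval (cd fun i => X (Sum.inr i)) (Q j) := by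
  show eval (cd X) (rename (Prod.map Sum.inr id) (Q j)) = _
  rw [eval_rename]
  rfl

theorem eval_graph_inr {k : Type*} [CommRing k] {n N : ℕ} {κ : Type}
    (Q : κ → MvPolynomial (Fin N × Bool) k) (A B : Fin n → MvPolynomial (Fin N × Bool) k) (i : Fin n)
    (X : Fin n ⊕ Fin N → Option k) :
    eval (cd X) (graphSys Q A B (Sum.inr i)) =
      num (X (Sum.inl i)) * eval (cd fun i => X (Sum.inr i)) (B i) -
      den (X (Sum.inl i)) * eval (cd fun i => X (Sum.inr i)) (A i) := by
  show eval (cd X) (MvPolynomial.X (Sum.inl i, false) * rename (Prod.map Sum.inr id) (B i) -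
      MvPolynomial.X (Sum.inl i, true) * rename (Prod.map Sum.inr id) (A i)) = _
  rw [map_sub, map_mul, map_mul, eval_X, eval_X, eval_rename, eval_rename]
  rfl

theorem map_graph {Λ k : Type*} [CommRing Λ] [CommRing k] (f : Λ →+* k) {n N : ℕ} {κ : Type}
    (Q : κ → MvPolynomial (Fin N × Bool) Λ) (A B : Fin n → MvPolynomial (Fin N × Bool) Λ)
    (j : κ ⊕ Fin n) :
    MvPolynomial.map f (graphSys Q A B j) = graphSys (fun j => MvPolynomial.map f (Q j))
      (fun i => MvPolynomial.map f (A i)) (fun i => MvPolynomial.map f (B i)) j := by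
  cases j with
  | inl j =>
    show MvPolynomial.map f (rename _ _) = rename _ _
    rw [map_rename]
  | inr i =>
    show MvPolynomial.map f (_ * rename _ _ - _ * rename _ _) = _ * rename _ _ - _ * rename _ _
    rw [map_sub, map_mul, map_mul, map_X, map_X, map_rename, map_rename]

/-- If the functions `A i / B i` specialize to constants in general position, there are no grids. -/
theorem noGrid_functions {Λ L k₀ : Type} [CommRing Λ] [Field L] [Field k₀] [CharZero k₀]
    (f : Λ →+* L) (θ : Λ →+* k₀) (hker : ∀ a, f a = 0 → θ a = 0) {n N c : ℕ} {κ : Type}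
    {Q : κ → MvPolynomial (Fin N × Bool) Λ} {A B : Fin n → MvPolynomial (Fin N × Bool) Λ}
    {δQ : κ → Fin N → ℕ} {δ : Fin n → Fin N → ℕ} (hQ : ∀ j, MH (δQ j) (Q j))
    (hAm : ∀ i, MH (δ i) (A i)) (hBm : ∀ i, MH (δ i) (B i))
    {G : Polynomial (Polynomial ℤ)} (hG : G.Monic) (sq : ℕ → ℤ)
    (hsq : ∀ a b, a ≠ b → ∀ (k : Type) [Field k] [CharZero k]
      (y : Option k), Lp G (some (sq a : k)) y → Lp G (some (sq b : k)) y → False)
    {h : Polynomial ℤ} (hh : h.Monic) (hhsq : ∀ a, h.eval (sq a) ≠ 0)
    (hA : ∀ i : Fin n, MvPolynomial.map θ (A i) =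
      MvPolynomial.C ((sq i : ℤ) : k₀) * MvPolynomial.map θ (B i))
    (hgen : ∀ (K : Type) [Field K] (g : Λ →+* K), (∀ a, g a = 0 ↔ θ a = 0) →
      ∀ Y : Fin N → Option K, (∀ j, eval (cd Y) (MvPolynomial.map g (Q j)) = 0) →
      ∀ T : Finset (Fin n), (∀ i ∈ T, eval (cd Y) (MvPolynomial.map g (B i)) = 0) → T.card + c ≤ n)
    (ρ : Fin n → Fin n) (S J : Finset (Fin n)) (hc : Cond c ρ S J) :
    ¬ HasGrid L G (fun j => MvPolynomial.map f (graphSys Q A B j)) ρ (S ∪ J)
      (fixPoly (fun i => sq (n + i)) h S) (n * (c + n)) := by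
  classical
  intro hgrid
  obtain ⟨V, hV, hres⟩ := exists_place f θ hker
  let κ' := IsLocalRing.ResidueField V
  let fV : Λ →+* V := f.codRestrict V.toSubring hV
  let g : Λ →+* κ' := (IsLocalRing.residue V).comp fV
  have hg : ∀ a, g a = 0 ↔ θ a = 0 := hres
  have hcast : ∀ m : ℤ, (m : κ') = 0 → m = 0 := by
    intro m hm
    have e1 : g (m : Λ) = 0 := by rw [map_intCast]; exact hm
    have e2 := (hg _).1 e1
    rw [map_intCast] at e2
    exact_mod_cast e2
  have hinj : ∀ m m' : ℤ, (m : κ') = m' → m = m' := by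
    intro m m' hm
    have := hcast (m - m') (by push_cast; rw [hm, sub_self])
    linarith
  have hchar : CharZero κ' := ⟨fun a b hab => by
    have := hinj a b (by push_cast; exact hab)
    exact_mod_cast this⟩
  have hun : ∀ a b, ∀ y : Option κ', Lp G (some (sq a : κ')) y → Lp G (some (sq b : κ')) y →
      a = b := by
    intro a b y h1 h2
    by_contra hab
    exact hsq a b hab κ' y h1 h2
  have hsqinj : ∀ a b, sq a = sq b → a = b := fun a b hab =>
    hun a b (some (sq a : κ')) (Or.inl rfl) (Or.inl (by rw [hab]))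
  have hAg : ∀ i : Fin n, MvPolynomial.map g (A i) =
      MvPolynomial.C ((sq i : ℤ) : κ') * MvPolynomial.map g (B i) := by
    intro i
    ext m
    have e1 := congrArg (MvPolynomial.coeff m) (hA i)
    rw [coeff_map, coeff_C_mul, coeff_map] at e1
    rw [coeff_map, coeff_C_mul, coeff_map]
    have e2 : θ (MvPolynomial.coeff m (A i) - (sq i : Λ) * MvPolynomial.coeff m (B i)) = 0 := by
      rw [map_sub, map_mul, map_intCast, e1, sub_self]
    have e3 := (hg _).2 e2
    rw [map_sub, map_mul, map_intCast, sub_eq_zero] at e3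
    exact e3
  have hgrid2 := HasGrid.red (A := V) hG fV (F := graphSys Q A B)
    (graph_MH hQ hAm hBm) (fun i _ => fixPoly_monic (fun i : Fin n => sq (n + i)) hh S i) hgrid
  obtain ⟨W, h1, h2, h3⟩ := hgrid2
  obtain ⟨hρ, hSJ, hJ, hcard⟩ := hc
  have hheval : ∀ m : ℤ, h.eval m ≠ 0 → h.eval₂ (Int.castRingHom κ') (m : κ') ≠ 0 := by
    intro m hm h0
    have e1 : h.eval₂ (Int.castRingHom κ') (m : κ') = ((h.eval m : ℤ) : κ') := by
      simpa using Polynomial.eval₂_at_apply (p := h) (Int.castRingHom κ') m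
    rw [e1] at h0
    exact hm (hcast _ h0)
  let R : Fin n → Set (Option κ') := fun i =>
    if i ∈ J then {x | ∃ t, x = some t ∧ h.eval₂ (Int.castRingHom κ') t = 0} ∪
      {some ((sq i : ℤ) : κ')}
    else {some ((sq (n + i) : ℤ) : κ'), some ((sq i : ℤ) : κ')}
  refine comb (q := c + S.card + J.card) ρ hρ (fun a i => W a (Sum.inl i)) (Lk G) h3 R ?_ ?_ hcard ?_
  · intro i i' hii hρi x hx x' hx' t ht ht'
    have hiJ : i ∉ J := fun hi => hii (hJ i hi i' hρi.symm).symm
    have hiJ' : i' ∉ J := fun hi => hii (hJ i' hi i hρi)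
    simp only [R, if_neg hiJ] at hx
    simp only [R, if_neg hiJ'] at hx'
    rcases hx with rfl | hx
    · rcases hx' with rfl | hx'
      · have := hun _ _ t ht ht'
        exact hii (Fin.ext (by omega))
      · rw [Set.mem_singleton_iff] at hx'
        rw [hx'] at ht'
        have := hun _ _ t ht ht'
        have := i'.2
        omega
    · rw [Set.mem_singleton_iff] at hx
      rw [hx] at ht
      rcases hx' with rfl | hx'
      · have := hun _ _ t ht ht'
        have := i.2
        omega
      · rw [Set.mem_singleton_iff] at hx'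
        rw [hx'] at ht'
        have := hun _ _ t ht ht'
        exact hii (Fin.ext this)
  · intro a
    let Y : Fin N → Option κ' := fun i => W a (Sum.inr i)
    have hY : ∀ j, eval (cd Y) (MvPolynomial.map g (Q j)) = 0 := by
      intro j
      have e1 := h1 a (Sum.inl j)
      beta_reduce at e1
      rw [map_graph, eval_graph_inl] at e1
      exact e1
    let Z : Finset (Fin n) := Finset.univ.filter fun i =>
      eval (cd Y) (MvPolynomial.map g (B i)) = 0
    have hZc : Z.card + c ≤ n := hgen κ' g hg Y hY Z fun i hi => (Finset.mem_filter.1 hi).2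
    have hout : ∀ i, i ∉ Z → W a (Sum.inl i) = some ((sq i : ℤ) : κ') := by
      intro i hi
      have hB0 : eval (cd Y) (MvPolynomial.map g (B i)) ≠ 0 := by
        intro h0
        exact hi (Finset.mem_filter.2 ⟨Finset.mem_univ _, h0⟩)
      have e1 := h1 a (Sum.inr i)
      beta_reduce at e1
      rw [map_graph, eval_graph_inr] at e1
      have e2 : eval (cd fun i => W a (Sum.inr i)) (MvPolynomial.map g (A i)) =
          ((sq i : ℤ) : κ') * eval (cd Y) (MvPolynomial.map g (B i)) := by
        rw [hAg i, map_mul, eval_C]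
      have e3 : (num (W a (Sum.inl i)) - den (W a (Sum.inl i)) * ((sq i : ℤ) : κ')) *
          eval (cd Y) (MvPolynomial.map g (B i)) = 0 := by
        rw [← e1]
        show _ = num (W a (Sum.inl i)) * eval (cd Y) (MvPolynomial.map g (B i)) -
          den (W a (Sum.inl i)) * eval (cd fun i => W a (Sum.inr i)) (MvPolynomial.map g (A i))
        rw [e2]
        ring
      have e4 := (mul_eq_zero.1 e3).resolve_right hB0
      cases hW : W a (Sum.inl i) with
      | none =>
        rw [hW] at e4
        simp [num, den] at e4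
      | some x =>
        rw [hW] at e4
        simp only [num, den, one_mul] at e4
        rw [sub_eq_zero.1 e4]
    have hSJZ : S ∪ J ⊆ Z := by
      intro i hi
      by_contra hiZ
      have e1 := hout i hiZ
      obtain ⟨x, hx, hx0⟩ := h2 a i hi
      rw [e1] at hx
      have hx' := Option.some.inj hx
      rw [← hx', fixPoly] at hx0
      split_ifs at hx0 with hiS
      · rw [Polynomial.eval₂_sub, Polynomial.eval₂_X, Polynomial.eval₂_C, sub_eq_zero,
          eq_intCast] at hx0
        have := hsqinj _ _ (hinj _ _ hx0)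
        have := i.2
        omega
      · exact hheval _ (hhsq _) hx0
    refine ⟨Zᶜ ∪ (S ∪ J), ?_, ?_⟩
    · rw [Finset.card_union_of_disjoint, Finset.card_union_of_disjoint hSJ, Finset.card_compl,
        Fintype.card_fin]
      · omega
      · rw [Finset.disjoint_left]
        intro i hi hi'
        exact (Finset.mem_compl.1 hi) (hSJZ hi')
    · intro i hi
      rcases Finset.mem_union.1 hi with hi | hi
      · have e1 := hout i (Finset.mem_compl.1 hi)
        simp only [R]
        split_ifs
        · exact Or.inr e1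
        · exact Or.inr e1
      · obtain ⟨x, hx, hx0⟩ := h2 a i hi
        by_cases hiS : i ∈ S
        · have hiJ : i ∉ J := fun h5 => Finset.disjoint_left.1 hSJ hiS h5
          simp only [R, if_neg hiJ]
          left
          rw [fixPoly, if_pos hiS, Polynomial.eval₂_sub, Polynomial.eval₂_X,
            Polynomial.eval₂_C, sub_eq_zero, eq_intCast] at hx0
          rw [hx, hx0]
        · have hiJ : i ∈ J := (Finset.mem_union.1 hi).resolve_left hiS
          simp only [R, if_pos hiJ]
          rw [fixPoly, if_neg hiS] at hx0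
          exact Or.inl ⟨x, hx, hx0⟩
  · have h5 : S.card + J.card ≤ n := by
      rw [← Finset.card_union_of_disjoint hSJ]
      simpa using Finset.card_le_univ (S ∪ J)
    exact Nat.mul_le_mul_left _ (by omega)

end Pool.Agent.NH30.KH
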