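import Pool.Agent.NH30.KH.Gen

/-!
# Homogenization (helper30)
-/

set_option autoImplicit false

open Function MvPolynomial

namespace Pool.Agent.NH30.KH

open Pool.Agent.NH30.KF

/-- the exponent of the homogenization -/
noncomputable def homExp {N : ℕ} (δ : Fin N → ℕ) (m : Fin N →₀ ℕ) : Fin N × Bool →₀ ℕ :=
  Finsupp.equivFunOnFinite.symm fun v => if v.2 then δ v.1 - m v.1 else m v.1

/-- multihomogenization of a polynomial -/
noncomputable def hom {Λ : Type*} [CommRing Λ] {N : ℕ} (P : MvPolynomial (Fin N) Λ) :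
    MvPolynomial (Fin N × Bool) Λ :=
  ∑ m ∈ P.support, monomial (homExp (fun i => P.degreeOf i) m) (P.coeff m)

theorem hom_MH {Λ : Type*} [CommRing Λ] {N : ℕ} (P : MvPolynomial (Fin N) Λ) :
    MH (fun i => P.degreeOf i) (hom P) := by
  classical
  intro m hm i
  have h1 := support_sum hm
  rw [Finset.mem_biUnion] at h1
  obtain ⟨m₀, hm₀, h2⟩ := h1
  have h3 := support_monomial_subset h2
  rw [Finset.mem_singleton] at h3
  subst h3
  have h4 : m₀ i ≤ P.degreeOf i := by
    rw [degreeOf_eq_sup]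
    exact Finset.le_sup (f := fun m : Fin N →₀ ℕ => m i) hm₀
  simp only [homExp, Finsupp.equivFunOnFinite_symm_apply_apply]
  simp only [Bool.false_eq_true, if_false, if_true]
  omega

theorem eval_hom {Λ k : Type*} [CommRing Λ] [CommRing k] (f : Λ →+* k) {N : ℕ}
    (P : MvPolynomial (Fin N) Λ) (c : Fin N × Bool → k)
    (hc : ∀ i, P.degreeOf i ≠ 0 → c (i, true) = 1) :
    eval₂ f c (hom P) = eval₂ f (fun i => c (i, false)) P := by
  classical
  unfold hom
  rw [MvPolynomial.eval₂_sum, eval₂_eq']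
  refine Finset.sum_congr rfl fun m hm => ?_
  rw [eval₂_monomial, Finsupp.prod_fintype _ _ (fun _ => pow_zero _), Fintype.prod_prod_type]
  congr 1
  refine Finset.prod_congr rfl fun i _ => ?_
  have h4 : m i ≤ P.degreeOf i := by
    rw [degreeOf_eq_sup]
    exact Finset.le_sup (f := fun m : Fin N →₀ ℕ => m i) hm
  rw [Fintype.prod_bool]
  simp only [homExp, Finsupp.equivFunOnFinite_symm_apply_apply, if_true, Bool.false_eq_true,
    if_false]
  by_cases h0 : P.degreeOf i = 0
  · have h5 : m i = 0 := by omega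
    rw [h0, h5]
    simp
  · rw [hc i h0, one_pow, one_mul]

theorem map_hom {Λ k : Type*} [CommRing Λ] [CommRing k] (f : Λ →+* k) {N : ℕ}
    (P : MvPolynomial (Fin N) Λ) (c : Fin N × Bool → k) :
    eval c (MvPolynomial.map f (hom P)) = eval₂ f c (hom P) := eval_map _ _ _

/-- an integral point where finitely many non-zero polynomials do not vanish -/
theorem exists_point {Λ : Type*} [CommRing Λ] [IsDomain Λ] [CharZero Λ] {σ : Type*} {ι : Type*}
    [Finite ι] (P : ι → MvPolynomial σ Λ) (hP : ∀ j, P j ≠ 0) :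
    ∃ β : σ → ℤ, ∀ j, eval (fun i => (β i : Λ)) (P j) ≠ 0 := by
  classical
  have := Fintype.ofFinite ι
  have hprod : ∏ j, P j ≠ 0 := Finset.prod_ne_zero_iff.2 fun j _ => hP j
  have hinf : (Set.range fun m : ℤ => (m : Λ)).Infinite :=
    Set.infinite_range_of_injective Int.cast_injective
  by_contra hcon
  push Not at hcon
  apply hprod
  refine MvPolynomial.funext_set (fun _ => Set.range fun m : ℤ => (m : Λ)) (fun _ => hinf) ?_
  intro x hx
  choose β hβ using fun i => hx i (Set.mem_univ _)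
  obtain ⟨j, hj⟩ := hcon β
  rw [map_prod, map_zero]
  refine Finset.prod_eq_zero (Finset.mem_univ j) ?_
  rw [← hj]
  congr 2
  funext i
  exact (hβ i).symm

theorem eval₂_congr_vars {Λ k : Type*} [CommRing Λ] [CommRing k] (f : Λ →+* k) {σ : Type*}
    (P : MvPolynomial σ Λ) (u v : σ → k) (h : ∀ i ∈ P.vars, u i = v i) :
    eval₂ f u P = eval₂ f v P := by
  refine eval₂_congr (f := f) u v ?_
  intro i m hi hm
  exact h i ((mem_vars_iff_mem_support i).2 ⟨m, mem_support_iff.2 hm, hi⟩)

theorem mem_vars_of_degreeOf {Λ : Type*} [CommRing Λ] {σ : Type*} (P : MvPolynomial σ Λ) (i : σ)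
    (h : P.degreeOf i ≠ 0) : i ∈ P.vars := by
  classical
  by_contra hi
  apply h
  rw [degreeOf_eq_sup]
  refine Nat.eq_zero_of_le_zero (Finset.sup_le fun m hm => ?_)
  by_contra h0
  apply hi
  rw [mem_vars_iff_mem_support]
  exact ⟨m, hm, Finsupp.mem_support_iff.2 fun h1 => h0 (by rw [h1])⟩

theorem eval₂_eval {Λ k : Type*} [CommRing Λ] [CommRing k] (f : Λ →+* k) {σ : Type*}
    (P : MvPolynomial σ Λ) (β : σ → ℤ) :
    eval₂ f (fun i => (β i : k)) P = f (eval (fun i => (β i : Λ)) P) := by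
  rw [← eval₂_id, eval₂_comp_left, RingHom.comp_id]
  congr 1
  funext i
  simp

end Pool.Agent.NH30.KH
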