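import Pool.Agent.NH30.KH.Hom
import Pool.Agent.W282.ZP.Geo

/-!
# Relations between the coordinates over rings of polynomials, specialization, counting (helper30)
-/

set_option autoImplicit false

open MvPolynomial

namespace Pool.Agent.NH30.KH

open Pool.Agent.W282.ZP

theorem alg_closure_of_adjoin (s : Set ℂ) (c : ℂ) (h : IsAlgebraic (Algebra.adjoin ℤ s) c) :
    IsAlgebraic (Subring.closure s) c := by
  obtain ⟨p, hp0, hp⟩ := h
  have hle : ∀ a ∈ Algebra.adjoin ℤ s, a ∈ Subring.closure s := by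
    intro a ha
    rw [Algebra.adjoin_int] at ha
    exact ha
  let f : Algebra.adjoin ℤ s →+* Subring.closure s :=
    (algebraMap (Algebra.adjoin ℤ s) ℂ).codRestrict (Subring.closure s) (fun a => hle a a.2)
  have hf : Function.Injective f := fun a b hab =>
    Subtype.ext (congrArg (fun z : Subring.closure s => (z : ℂ)) hab)
  refine ⟨p.map f, (Polynomial.map_ne_zero_iff hf).2 hp0, ?_⟩
  rw [Polynomial.aeval_def, Polynomial.eval₂_map]
  exact hp

theorem exists_gamma (C : Set ℂ) (hC : C.Finite) :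
    ∃ Γ : Finset ℂ, AlgebraicIndependent ℤ (fun γ : Γ => (γ : ℂ)) ∧
      ∀ c ∈ C, IsAlgebraic (Subring.closure (Γ : Set ℂ)) c := by
  classical
  obtain ⟨u, -, hu⟩ := exists_maximal_algebraicIndependent (R := ℤ) (∅ : Set ℂ) C
    (Set.empty_subset _) (by
      have : AlgebraicIndependent ℤ (fun i : (∅ : Set ℂ) => (i : ℂ)) :=
        algebraicIndependent_empty_type_iff.2 (FaithfulSMul.algebraMap_injective ℤ ℂ)
      exact this)
  have hfin : u.Finite := hC.subset hu.1.2
  refine ⟨hfin.toFinset, ?_, ?_⟩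
  · have h1 : AlgebraicIndependent ℤ (fun i : u => (i : ℂ)) := hu.1.1
    exact h1.comp (fun γ : hfin.toFinset => (⟨γ.1, hfin.mem_toFinset.1 γ.2⟩ : u))
      (fun a b hab => Subtype.ext (congrArg (fun z : u => (z : ℂ)) hab))
  · intro c hc
    rw [hfin.coe_toFinset]
    by_cases hcu : c ∈ u
    · exact isAlgebraic_algebraMap (⟨c, Subring.subset_closure hcu⟩ : Subring.closure u)
    · by_contra hcon
      have h1 : Transcendental (Algebra.adjoin ℤ (id '' u)) (id c) := by
        intro halg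
        rw [Set.image_id] at halg
        exact hcon (alg_closure_of_adjoin u c halg)
      have h2 : AlgebraicIndepOn ℤ id (insert c u) := AlgebraicIndepOn.insert hu.1.1 h1
      have h3 := hu.2 ⟨h2, Set.insert_subset hc hu.1.2⟩ (Set.subset_insert c u)
      exact hcu (h3 (Set.mem_insert c u))

theorem dependent_coords {N : ℕ} (V : Set (Fin N → ℂ)) {c n : ℕ}
    (hdim : zdim V + (c : Cardinal) ≤ (n : Cardinal)) (I : Finset (Fin N))
    (hI : I.card + c = n + 1) :
    ∃ p : MvPolynomial I ℂ, p ≠ 0 ∧ ∀ y ∈ V, eval (fun i : I => y i) p = 0 := by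
  by_contra hcon
  push Not at hcon
  let B := MvPolynomial (Fin N) ℂ ⧸ idealOf V
  let z : I → B := fun i => Ideal.Quotient.mk (idealOf V) (X i.1)
  have hz : AlgebraicIndependent ℂ z := by
    rw [algebraicIndependent_iff]
    intro p hp
    by_contra hp0
    obtain ⟨y, hy, hy0⟩ := hcon p hp0
    have h1 : Ideal.Quotient.mk (idealOf V) (rename (fun i : I => i.1) p) = 0 := by
      have e1 := congrArg (fun φ => φ (rename (fun i : I => i.1) p))
        (aeval_unique (Ideal.Quotient.mkₐ ℂ (idealOf V)))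
      beta_reduce at e1
      rw [aeval_rename] at e1
      exact e1.trans hp
    rw [Ideal.Quotient.eq_zero_iff_mem, mem_idealOf] at h1
    have h2 := h1 y hy
    rw [eval_rename] at h2
    exact hy0 h2
  have h1 := hz.cardinalMk_le_trdeg
  rw [Cardinal.mk_fintype, Fintype.card_coe] at h1
  have h2 : (I.card : Cardinal) + (c : Cardinal) ≤ (n : Cardinal) :=
    (add_le_add h1 le_rfl).trans hdim
  have h3 : I.card + c ≤ n := by exact_mod_cast h2
  omega

/-- A variety has the relations which its dimension implies over a ring of polynomials. -/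
theorem exists_relations {N : ℕ} (V : Set (Fin N → ℂ)) {c n : ℕ}
    (hdim : zdim V + (c : Cardinal) ≤ (n : Cardinal)) :
    ∃ Γ : Finset ℂ, AlgebraicIndependent ℤ (fun γ : Γ => (γ : ℂ)) ∧
      ∀ I : Finset (Fin N), I.card + c = n + 1 →
        ∃ P : MvPolynomial (Fin N) (Subring.closure (Γ : Set ℂ)), P ≠ 0 ∧ P.vars ⊆ I ∧
          ∀ y ∈ V, eval₂ (Subring.subtype _) y P = 0 := by
  classical
  have h1 : ∀ I : {I : Finset (Fin N) // I.card + c = n + 1},
      ∃ p : MvPolynomial I.1 ℂ, p ≠ 0 ∧ ∀ y ∈ V, eval (fun i : I.1 => y i) p = 0 :=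
    fun I => dependent_coords V hdim I.1 I.2
  choose p hp0 hp using h1
  let C : Set ℂ := ⋃ I : {I : Finset (Fin N) // I.card + c = n + 1}, ((p I).coeffs : Set ℂ)
  have hC : C.Finite := Set.finite_iUnion fun I => Finset.finite_toSet _
  obtain ⟨Γ, hΓ, halg⟩ := exists_gamma C hC
  refine ⟨Γ, hΓ, fun I hI => ?_⟩
  let Λ := Subring.closure (Γ : Set ℂ)
  let S : Subalgebra Λ ℂ := Subalgebra.algebraicClosure Λ ℂ
  have hSalg : Algebra.IsAlgebraic Λ S := by
    refine ⟨fun x => ?_⟩
    have h2 : IsAlgebraic Λ (x : ℂ) := x.2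
    exact (isAlgebraic_algebraMap_iff (A := ℂ) Subtype.val_injective).1 h2
  obtain ⟨p', hp'⟩ : ∃ p' : MvPolynomial I S, MvPolynomial.map (algebraMap S ℂ) p' = p ⟨I, hI⟩ := by
    refine (MvPolynomial.mem_range_map_iff_coeffs_subset (f := algebraMap S ℂ)
      (x := p ⟨I, hI⟩)).2 ?_
    intro a ha
    have h3 : a ∈ C := Set.mem_iUnion.2 ⟨⟨I, hI⟩, ha⟩
    exact ⟨⟨a, halg a h3⟩, rfl⟩
  have hp'0 : p' ≠ 0 := by
    rintro rfl
    rw [map_zero] at hp'
    exact hp0 _ hp'.symm
  obtain ⟨g, hg0, hg⟩ := MvPolynomial.exists_dvd_map_of_isAlgebraic (R := Λ) hp'0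
  refine ⟨rename (fun i : I => i.1) g, ?_, ?_, ?_⟩
  · intro h0
    exact hg0 (rename_injective _ Subtype.val_injective (by rw [h0, map_zero]))
  · intro i hi
    have h3 := vars_rename (fun i : I => i.1) g hi
    obtain ⟨j, -, rfl⟩ := Finset.mem_image.1 h3
    exact j.2
  · intro y hy
    rw [eval₂_rename]
    obtain ⟨q, hq⟩ := hg
    have h3 := congrArg (fun w => eval₂ (algebraMap S ℂ) (fun i : I => y i) w) hq
    beta_reduce at h3
    rw [eval₂_mul, eval₂_map] at h3
    have h4 : eval₂ (algebraMap S ℂ) (fun i : I => y i) p' = 0 := by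
      rw [← eval_map, hp']
      exact hp ⟨I, hI⟩ y hy
    rw [h4, zero_mul] at h3
    exact h3

/-- specialization of elements of rings of polynomials -/
theorem exists_specialization (Γ : Finset ℂ) (hΓ : AlgebraicIndependent ℤ (fun γ : Γ => (γ : ℂ)))
    (w : Subring.closure (Γ : Set ℂ)) (hw : w ≠ 0) :
    ∃ N₀ : ℤ, N₀ ≠ 0 ∧ ∀ p : ℕ, p.Prime → ¬ (p : ℤ) ∣ N₀ →
      ∃ ψ : Subring.closure (Γ : Set ℂ) →+* ZMod p, ψ w ≠ 0 := by
  classical
  let F : MvPolynomial Γ ℤ →+* Subring.closure (Γ : Set ℂ) :=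
    eval₂Hom (Int.castRingHom _) (fun γ => ⟨γ.1, Subring.subset_closure γ.2⟩)
  have hFval : ∀ P, ((F P : Subring.closure (Γ : Set ℂ)) : ℂ) = aeval (fun γ : Γ => (γ : ℂ)) P := by
    intro P
    have e1 : (Subring.closure (Γ : Set ℂ)).subtype.comp F =
        ((aeval (fun γ : Γ => (γ : ℂ)) : MvPolynomial Γ ℤ →ₐ[ℤ] ℂ) : MvPolynomial Γ ℤ →+* ℂ) := by
      refine MvPolynomial.ringHom_ext (fun a => ?_) (fun γ => ?_)
      · simp [F]
      · simp [F]
    exact RingHom.congr_fun e1 P
  have hinj : Function.Injective F := by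
    intro P Q hPQ
    apply hΓ
    show aeval (fun γ : Γ => (γ : ℂ)) P = aeval (fun γ : Γ => (γ : ℂ)) Q
    rw [← hFval, ← hFval, hPQ]
  have hsurj : Function.Surjective F := by
    have h1 : Subring.closure (Γ : Set ℂ) ≤ ((Subring.closure (Γ : Set ℂ)).subtype.comp F).range := by
      rw [Subring.closure_le]
      intro γ hγ
      exact ⟨X ⟨γ, hγ⟩, by simp [F]⟩
    intro x
    obtain ⟨P, hP⟩ := h1 x.2
    exact ⟨P, Subtype.ext hP⟩
  let e : MvPolynomial Γ ℤ ≃+* Subring.closure (Γ : Set ℂ) := RingEquiv.ofBijective F ⟨hinj, hsurj⟩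
  obtain ⟨t, ht⟩ := exists_point (ι := Unit) (fun _ => e.symm w) (fun _ => by
    intro h0
    apply hw
    rw [← e.apply_symm_apply w, h0, map_zero])
  refine ⟨eval (fun i => ((t i : ℤ) : ℤ)) (e.symm w), ht (), fun p hp hdvd => ?_⟩
  refine ⟨((Int.castRingHom (ZMod p)).comp (eval (fun i => ((t i : ℤ) : ℤ)))).comp
    (e.symm : Subring.closure (Γ : Set ℂ) →+* MvPolynomial Γ ℤ), ?_⟩
  show ((eval (fun i => ((t i : ℤ) : ℤ)) (e.symm w) : ℤ) : ZMod p) ≠ 0
  intro h0
  exact hdvd ((ZMod.intCast_zmod_eq_zero_iff_dvd _ _).1 h0)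

open Classical in
/-- counting integral zeros of a polynomial over a domain of characteristic zero -/
theorem count_domain {Λ : Type*} [CommRing Λ] [IsDomain Λ] [CharZero Λ] {σ : Type*} [Fintype σ]
    {R : MvPolynomial σ Λ} (hR : R ≠ 0) (H : ℕ) :
    {v : σ → ℤ | (∀ s, |v s| ≤ H) ∧ eval (fun s => (v s : Λ)) R = 0}.ncard * (2 * H + 1) ≤
      R.totalDegree * (2 * H + 1) ^ Fintype.card σ := by
  let e := Fintype.equivFin σ
  let R' := rename e R
  have hR' : R' ≠ 0 := fun h => hR (rename_injective e e.injective (by rw [map_zero]; exact h))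
  let S : Finset Λ := (Finset.Icc (-(H : ℤ)) H).image (fun m : ℤ => (m : Λ))
  have hS : S.card = 2 * H + 1 := by
    rw [Finset.card_image_of_injective _ Int.cast_injective, Int.card_Icc]
    omega
  have h := schwartz_zippel_totalDegree hR' S
  rw [hS] at h
  have hq : (0 : ℚ≥0) < ((2 * H + 1 : ℕ) : ℚ≥0) := by positivity
  rw [div_le_div_iff₀ (by positivity) hq] at h
  have h1 : ((Fintype.piFinset fun _ : Fin (Fintype.card σ) => S).filter
      fun v => eval v R' = 0).card * (2 * H + 1) ≤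
      R'.totalDegree * (2 * H + 1) ^ Fintype.card σ := by exact_mod_cast h
  have hdeg : R'.totalDegree ≤ R.totalDegree := totalDegree_rename_le _ _
  have h2 : {v : σ → ℤ | (∀ s, |v s| ≤ H) ∧ eval (fun s => (v s : Λ)) R = 0}.ncard ≤
      ((Fintype.piFinset fun _ : Fin (Fintype.card σ) => S).filter
        fun v => eval v R' = 0).card := by
    rw [← Set.ncard_coe_finset]
    refine Set.ncard_le_ncard_of_injOn (fun v i => ((v (e.symm i) : ℤ) : Λ)) ?_ ?_
      (Finset.finite_toSet _)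
    · rintro v ⟨hv, hv0⟩
      rw [Finset.mem_coe, Finset.mem_filter, Fintype.mem_piFinset]
      refine ⟨fun i => ?_, ?_⟩
      · exact Finset.mem_image.2 ⟨_, Finset.mem_Icc.2 (abs_le.1 (hv _)), rfl⟩
      · rw [eval_rename]
        have : (fun i => ((v (e.symm i) : ℤ) : Λ)) ∘ e = fun s => (v s : Λ) := by
          funext s
          simp
        rw [this]
        exact hv0
    · intro v _ w _ h
      funext s
      have := congrFun h (e s)
      simpa using this
  calc _ ≤ _ * (2 * H + 1) := Nat.mul_le_mul_right _ h2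
    _ ≤ _ := h1
    _ ≤ _ := Nat.mul_le_mul_right _ hdeg

end Pool.Agent.NH30.KH
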