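import Pool.Agent.NH30.KH.Clo
import Pool.Agent.NH30.KH.Rel

/-!
# Images under general rational functions and special subvarieties of level `N p ^ k` (helper30)
-/

set_option autoImplicit false

open MvPolynomial

namespace Pool.Agent.NH30.KH

open Pool.Agent.NH30.KF Pool.Agent.W282.ZP

/-- Images under general rational functions have no atypical intersections. -/
theorem img_noAtypical {n N c B : ℕ} {h : Polynomial ℤ} (hh : h.Monic) (D : Fin n → Fin N → ℕ)
    (hcn : c ≤ n) (V : Set (Fin N → ℂ)) (Λ₀ : Subring ℂ)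
    (hV : ∀ I : Finset (Fin N), I.card + c = n + 1 → ∃ P : MvPolynomial (Fin N) Λ₀, P ≠ 0 ∧
      P.vars ⊆ I ∧ ∀ y ∈ V, eval₂ Λ₀.subtype y P = 0) :
    ∃ R : MvPolynomial (Idx D) Λ₀, R ≠ 0 ∧
      ∀ (Λ : Subring ℂ) (hle : Λ₀ ≤ Λ) (p : ℕ), p.Prime → ∀ (ψ : Λ →+* ZMod p) (a : Idx D → Λ),
        ψ (eval₂ (Subring.inclusion hle) a R) ≠ 0 →
        NoAtypical p B h Λ c (zcl (image (fun v => (a v : ℂ)) V)) := by
  classical
  choose P hP0 hPv hPV using fun I : {I : Finset (Fin N) // I.card + c = n + 1} => hV I.1 I.2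
  obtain ⟨G, hGm, hG⟩ := exists_modular_le (B * B)
  obtain ⟨z, R, hR0, hR⟩ := img_general D hcn P hP0 hPv hGm h hh
  refine ⟨R, hR0, ?_⟩
  intro Λ hle p hp ψ a ha
  have : Fact p.Prime := ⟨hp⟩
  let Q : {I : Finset (Fin N) // I.card + c = n + 1} → MvPolynomial (Fin N × Bool) Λ :=
    fun I => MvPolynomial.map (Subring.inclusion hle) (hom (P I))
  have hQ : ∀ I, MH (fun i => (P I).degreeOf i) (Q I) := fun I => (hom_MH (P I)).map _
  refine main hp ψ hGm hG hh (imgSys D Q a) (imgSys_MH D hQ a) ?_ _ ?_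
  · intro ρ S J hc
    refine ⟨z, n * (c + n), fun k _ _ => ?_⟩
    let f : Λ →+* k := (ZMod.castHom (dvd_refl p) k).comp ψ
    have h1 := hR k (f.comp (Subring.inclusion hle)) (fun v => f (a v)) (by
      have e1 := eval₂_comp_left f (Subring.inclusion hle) a R
      have e2 : (f ∘ a) = fun v => f (a v) := rfl
      rw [e2] at e1
      rw [← e1]
      intro h0
      exact ha ((ZMod.castHom (dvd_refl p) k).injective (by rw [map_zero]; exact h0))) ρ S J hc
    have h2 : (fun j => MvPolynomial.map f (imgSys D Q a j)) =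
        imgSys D (fun I => MvPolynomial.map (f.comp (Subring.inclusion hle)) (hom (P I)))
          (fun v => f (a v)) := by
      funext j
      rw [map_imgSys]
      congr 1
      funext I
      exact MvPolynomial.map_map _ _ _
    rw [← h2] at h1
    exact h1
  · have h2 : (fun j => MvPolynomial.map (algebraMap Λ ℂ) (imgSys D Q a j)) =
        imgSys D (fun I => MvPolynomial.map (algebraMap Λ ℂ) (Q I)) (fun v => (a v : ℂ)) := by
      funext j
      exact map_imgSys (algebraMap Λ ℂ) D Q a j
    rw [h2]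
    refine zcl_image_subset (fun I => (hQ I).map _) ?_ _
    intro y hy I
    show eval _ (MvPolynomial.map (algebraMap Λ ℂ) (MvPolynomial.map (Subring.inclusion hle)
      (hom (P I)))) = 0
    rw [MvPolynomial.map_map, eval_map, eval_hom]
    · exact hPV I y hy
    · intro i _
      rfl

end Pool.Agent.NH30.KH
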