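import Pool.Agent.NH30.KF.Seq
import Pool.Agent.NH30.KF.Elim

/-!
# Grids for systems of multihomogeneous polynomials with auxiliary coordinates (helper30)

The coordinates are indexed by `σ = Fin n ⊕ Fin N`; the coordinates in `Fin N` are auxiliary.
-/

set_option autoImplicit false

open Function MvPolynomial

namespace Pool.Agent.NH30.KH

open Pool.Agent.NH30.KF

/-- Homogeneous coordinates of the point `X` of a product of projective lines. -/
def cd {σ : Type} {k : Type*} [CommRing k] (X : σ → Option k) : σ × Bool → k :=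
  fun v => if v.2 then den (X v.1) else num (X v.1)

/-- multihomogeneous polynomials of multidegree `δ` -/
def MH {σ : Type} {Λ : Type*} [CommRing Λ] (δ : σ → ℕ) (P : MvPolynomial (σ × Bool) Λ) : Prop :=
  ∀ m ∈ P.support, ∀ i, m (i, false) + m (i, true) = δ i

theorem MH.scale {σ : Type} [Fintype σ] {Λ : Type*} [CommRing Λ] {δ : σ → ℕ}
    {P : MvPolynomial (σ × Bool) Λ} (hP : MH δ P) {k : Type*} [CommRing k] (f : Λ →+* k)
    (l : σ → k) (c : σ × Bool → k) :
    eval₂ f (fun v => l v.1 * c v) P = (∏ i, l i ^ δ i) * eval₂ f c P := by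
  classical
  rw [eval₂_eq', eval₂_eq', Finset.mul_sum]
  refine Finset.sum_congr rfl fun m hm => ?_
  rw [mul_left_comm]
  congr 1
  have e1 : (∏ v : σ × Bool, (l v.1 * c v) ^ m v) =
      (∏ v : σ × Bool, l v.1 ^ m v) * ∏ v : σ × Bool, c v ^ m v := by
    rw [← Finset.prod_mul_distrib]
    exact Finset.prod_congr rfl fun v _ => mul_pow _ _ _
  rw [e1]
  congr 1
  rw [Fintype.prod_prod_type]
  refine Finset.prod_congr rfl fun i _ => ?_
  rw [Fintype.prod_bool, ← pow_add, ← hP m hm i, add_comm]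

theorem MH.map {σ : Type} {Λ Λ' : Type*} [CommRing Λ] [CommRing Λ'] {δ : σ → ℕ}
    {P : MvPolynomial (σ × Bool) Λ} (hP : MH δ P) (f : Λ →+* Λ') :
    MH δ (MvPolynomial.map f P) := by
  intro m hm
  exact hP m (support_map_subset f P hm)

/-- A grid of points for the system `F`. -/
def HasGrid (k : Type) [Field k] {n N : ℕ} {κ : Type} (G : Polynomial (Polynomial ℤ))
    (F : κ → MvPolynomial ((Fin n ⊕ Fin N) × Bool) k)
    (ρ : Fin n → Fin n) (I : Finset (Fin n)) (h : Fin n → Polynomial ℤ) (L : ℕ) : Prop :=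
  ∃ B : (Fin n → Fin (L + 1)) → Fin n ⊕ Fin N → Option k,
    (∀ a j, eval (cd (B a)) (F j) = 0) ∧
    (∀ a, ∀ i ∈ I, ∃ x, B a (Sum.inl i) = some x ∧ (h i).eval₂ (Int.castRingHom k) x = 0) ∧
    ∀ a a' i, ρ i ≠ i → (∀ j, j ≠ i → a' j = a j) → (a' i : ℕ) = a i + 1 →
      Lk G (B a' (Sum.inl i)) (B a (Sum.inl (ρ i)))

theorem cd_map {σ : Type} {k k' : Type*} [CommRing k] [CommRing k'] (f : k →+* k')
    (X : σ → Option k) : cd (fun i => (X i).map f) = fun v => f (cd X v) := by
  funext v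
  simp only [cd]
  split_ifs
  · exact den_map f _
  · exact num_map f _

theorem eval_map_cd {σ : Type} {k k' : Type*} [CommRing k] [CommRing k'] (f : k →+* k')
    (X : σ → Option k) (P : MvPolynomial (σ × Bool) k) :
    eval (cd fun i => (X i).map f) (MvPolynomial.map f P) = f (eval (cd X) P) := by
  rw [cd_map, eval_map]
  exact (eval₂_comp f (cd X) P).symm

section red

variable {L : Type} [Field L] (A : ValuationSubring L)

theorem eval_red {σ : Type} [Fintype σ] {Λ : Type} [CommRing Λ] {δ : σ → ℕ}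
    {P : MvPolynomial (σ × Bool) Λ} (hP : MH δ P) (f : Λ →+* A) (X : σ → Option L)
    (h : eval (cd X) (MvPolynomial.map (A.subtype.comp f) P) = 0) :
    eval (cd fun i => red A (X i))
      (MvPolynomial.map ((IsLocalRing.residue A).comp f) P) = 0 := by
  choose l a b h1 h2 h3 h4 h5 using fun i => red_coords A (X i)
  let c : σ × Bool → A := fun v => if v.2 then b v.1 else a v.1
  have e1 : cd X = fun v => l v.1 * A.subtype (c v) := by
    funext v
    simp only [cd, c]
    split_ifs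
    · exact h2 _
    · exact h1 _
  rw [eval_map, e1, hP.scale] at h
  have h6 : (∏ i, l i ^ δ i) ≠ 0 := Finset.prod_ne_zero_iff.2 fun i _ => pow_ne_zero _ (h3 i)
  have h7 := (mul_eq_zero.1 h).resolve_left h6
  have h8 : A.subtype (eval₂ f c P) = 0 := by
    rw [← h7, eval₂_comp_left]
    rfl
  have h9 : eval₂ f c P = 0 := Subtype.ext h8
  have e2 : (cd fun i => red A (X i)) = fun v => IsLocalRing.residue A (c v) := by
    funext v
    simp only [cd, c]
    split_ifs
    · exact (h5 _).symm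
    · exact (h4 _).symm
  rw [eval_map, e2]
  have h10 := congrArg (IsLocalRing.residue A) h9
  rw [eval₂_comp_left, map_zero] at h10
  exact h10

theorem HasGrid.red {n N : ℕ} {κ : Type} {G : Polynomial (Polynomial ℤ)} (hG : G.Monic)
    {Λ : Type} [CommRing Λ] (f : Λ →+* A)
    {F : κ → MvPolynomial ((Fin n ⊕ Fin N) × Bool) Λ} {δ : κ → (Fin n ⊕ Fin N) → ℕ}
    (hF : ∀ j, MH (δ j) (F j))
    {ρ : Fin n → Fin n} {I : Finset (Fin n)} {h : Fin n → Polynomial ℤ} (hh : ∀ i ∈ I, (h i).Monic)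
    {M : ℕ} (H : HasGrid L G (fun j => MvPolynomial.map (A.subtype.comp f) (F j)) ρ I h M) :
    HasGrid (IsLocalRing.ResidueField A) G
      (fun j => MvPolynomial.map ((IsLocalRing.residue A).comp f) (F j)) ρ I h M := by
  obtain ⟨B, h1, h2, h3⟩ := H
  refine ⟨fun a i => KF.red A (B a i), fun a j => eval_red A (hF j) f (B a) (h1 a j), ?_, ?_⟩
  · intro a i hi
    obtain ⟨x, hx, hx'⟩ := h2 a i hi
    beta_reduce
    rw [hx]
    exact root_red A (hh i hi) hx'
  · intro a a' i hi hj hai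
    exact (h3 a a' i hi hj hai).red A hG

end red

/-- Elimination: if there are no grids generically, there are none outside a hypersurface. -/
theorem elim {Λ : Type} [CommRing Λ] [IsDomain Λ] {n N : ℕ} {κ : Type}
    (Gp : Polynomial (Polynomial ℤ))
    (F : κ → MvPolynomial ((Fin n ⊕ Fin N) × Bool) Λ) (ρ : Fin n → Fin n) (I : Finset (Fin n))
    (h : Fin n → Polynomial ℤ) (L : ℕ)
    (H : ∀ (K : Type) [Field K] (f : Λ →+* K), Function.Injective f →
      ¬ HasGrid K Gp (fun j => MvPolynomial.map f (F j)) ρ I h L) :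
    ∃ R : Λ, R ≠ 0 ∧ ∀ (k : Type) [Field k] (f : Λ →+* k), f R ≠ 0 →
      ¬ HasGrid k Gp (fun j => MvPolynomial.map f (F j)) ρ I h L := by
  classical
  let G := Fin n → Fin (L + 1)
  let σ := Fin n ⊕ Fin N
  let MP := MvPolynomial (G × σ) Λ
  let nu : (G × σ → Bool) → G → σ → MP := fun χ a i =>
    if χ (a, i) then MvPolynomial.X (a, i) else 1
  let de : (G × σ → Bool) → G → σ → MP := fun χ a i => if χ (a, i) then 1 else 0
  let ev : (G × σ → Bool) → G → κ → MP := fun χ a j =>
    eval₂ (MvPolynomial.C : Λ →+* MP) (fun v => if v.2 then de χ a v.1 else nu χ a v.1) (F j)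
  let link : G → G → Fin n → Prop := fun a a' i =>
    ρ i ≠ i ∧ (∀ j, j ≠ i → a' j = a j) ∧ (a' i : ℕ) = a i + 1
  let S : (G × σ → Bool) → Set MP := fun χ =>
    {P | ∃ a j, P = ev χ a j} ∪
      {P | ∃ a, ∃ i ∈ I, P = (h i).eval₂ (Int.castRingHom MP) (nu χ a (Sum.inl i))} ∪
      {P | ∃ a a' i, link a a' i ∧ χ (a', Sum.inl i) = true ∧
        (P = ev2 Gp (nu χ a' (Sum.inl i)) (nu χ a (Sum.inl (ρ i))) ∨
        P = ev2 Gp (nu χ a (Sum.inl (ρ i))) (nu χ a' (Sum.inl i)))}
  let good : (G × σ → Bool) → Prop := fun χ =>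
    (∀ a, ∀ i ∈ I, χ (a, Sum.inl i) = true) ∧
      ∀ a a' i, link a a' i → χ (a', Sum.inl i) = χ (a, Sum.inl (ρ i))
  -- homomorphisms and the forms
  have hev : ∀ (k : Type) [Field k] (θ : MP →+* k) (χ : G × σ → Bool) (a : G) (j : κ),
      θ (ev χ a j) = eval (cd fun i => pt (χ (a, i)) (θ (MvPolynomial.X (a, i))))
        (MvPolynomial.map (θ.comp MvPolynomial.C) (F j)) := by
    intro k _ θ χ a j
    simp only [ev]
    rw [eval₂_comp_left, eval_map]
    congr 1
    funext v
    by_cases hc : χ (a, v.1) = true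
    · by_cases hv : v.2 = true
      · simp [nu, de, pt, num, den, cd, hc, hv]
      · simp [nu, de, pt, num, den, cd, hc, hv]
    · by_cases hv : v.2 = true
      · simp [nu, de, pt, num, den, cd, hc, hv]
      · simp [nu, de, pt, num, den, cd, hc, hv]
  have key : ∀ χ : G × σ → Bool, ∃ R : Λ, R ≠ 0 ∧
      (good χ → (MvPolynomial.C R : MP) ∈ Ideal.span (S χ)) := by
    intro χ
    by_cases hg : good χ
    swap
    · exact ⟨1, one_ne_zero, fun h => absurd h hg⟩
    by_contra hcon
    push Not at hcon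
    -- the multiplicative set
    let M : Submonoid MP := Submonoid.map (MvPolynomial.C : Λ →+* MP) (nonZeroDivisors Λ)
    have hdis : Disjoint (Ideal.span (S χ) : Set MP) (M : Set MP) := by
      rw [Set.disjoint_left]
      rintro _ hP ⟨R, hR, rfl⟩
      exact (hcon R (nonZeroDivisors.ne_zero hR)).2 hP
    obtain ⟨𝔭, hprime, hle, hdis'⟩ := Ideal.exists_le_prime_disjoint _ M hdis
    let K := FractionRing (MP ⧸ 𝔭)
    let θ : MP →+* K := (algebraMap (MP ⧸ 𝔭) K).comp (Ideal.Quotient.mk 𝔭)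
    have hθ0 : ∀ P, θ P = 0 ↔ P ∈ 𝔭 := by
      intro P
      show algebraMap (MP ⧸ 𝔭) K (Ideal.Quotient.mk 𝔭 P) = 0 ↔ _
      rw [FaithfulSMul.algebraMap_eq_zero_iff, Ideal.Quotient.eq_zero_iff_mem]
    have hinj : Function.Injective (θ.comp (MvPolynomial.C : Λ →+* MP)) := by
      rw [injective_iff_map_eq_zero]
      intro R hR
      by_contra hR0
      exact Set.disjoint_left.1 hdis' ((hθ0 _).1 hR)
        ⟨R, mem_nonZeroDivisors_of_ne_zero hR0, rfl⟩
    apply H K (θ.comp (MvPolynomial.C : Λ →+* MP)) hinj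
    have hzero : ∀ P ∈ S χ, θ P = 0 := fun P hP => (hθ0 P).2 (hle (Ideal.subset_span hP))
    refine ⟨fun a i => pt (χ (a, i)) (θ (MvPolynomial.X (a, i))), ?_, ?_, ?_⟩
    · intro a j
      have h1 := hzero (ev χ a j) (Or.inl (Or.inl ⟨a, j, rfl⟩))
      rw [hev] at h1
      exact h1
    · intro a i hi
      have hc := hg.1 a i hi
      refine ⟨θ (MvPolynomial.X (a, Sum.inl i)), by simp [pt, hc], ?_⟩
      have h1 := hzero _ (Or.inl (Or.inr ⟨a, i, hi, rfl⟩))
      have h2 : nu χ a (Sum.inl i) = MvPolynomial.X (a, Sum.inl i) := by simp [nu, hc]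
      rw [h2, Polynomial.hom_eval₂] at h1
      have e : θ.comp (Int.castRingHom MP) = Int.castRingHom K := RingHom.ext_int _ _
      rw [e] at h1
      exact h1
    · intro a a' i h1 h2 h3
      have hl : link a a' i := ⟨h1, h2, h3⟩
      have hc := hg.2 a a' i hl
      by_cases hc' : χ (a', Sum.inl i) = true
      · have h4 := hzero _ (Or.inr ⟨a, a', i, hl, hc', Or.inl rfl⟩)
        have h5 := hzero _ (Or.inr ⟨a, a', i, hl, hc', Or.inr rfl⟩)
        have e1 : nu χ a' (Sum.inl i) = MvPolynomial.X (a', Sum.inl i) := by simp [nu, hc']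
        have e2 : nu χ a (Sum.inl (ρ i)) = MvPolynomial.X (a, Sum.inl (ρ i)) := by
          rw [hc] at hc'
          simp [nu, hc']
        rw [e1, e2, ev2_map] at h4 h5
        refine Or.inr ⟨_, _, ?_, ?_, h4, h5⟩
        · simp only [hc', pt, if_true]
        · rw [hc] at hc'
          simp only [hc', pt, if_true]
      · rw [hc] at hc'
        have hc2 : χ (a, Sum.inl (ρ i)) = false := by simpa using hc'
        refine Or.inl ⟨?_, ?_⟩
        · simp only [hc, hc2, pt, Bool.false_eq_true, if_false]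
        · simp only [hc2, pt, Bool.false_eq_true, if_false]
  choose R hR0 hR using key
  refine ⟨∏ χ, R χ, Finset.prod_ne_zero_iff.2 fun χ _ => hR0 χ, fun k _ f hf hgrid => ?_⟩
  obtain ⟨B, h1, h2, h3⟩ := hgrid
  let χ : G × σ → Bool := fun z => (B z.1 z.2).isSome
  apply hf
  rw [map_prod]
  refine Finset.prod_eq_zero (Finset.mem_univ χ) ?_
  let θ : MP →+* k := MvPolynomial.eval₂Hom f (fun z => num (B z.1 z.2))
  have hpt : ∀ a i, pt (χ (a, i)) (θ (MvPolynomial.X (a, i))) = B a i := by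
    intro a i
    have h5 : θ (MvPolynomial.X (a, i)) = num (B a i) := MvPolynomial.eval₂Hom_X' _ _ _
    rw [h5]
    show pt (B a i).isSome (num (B a i)) = B a i
    cases B a i <;> simp [num, pt]
  have hgood : good χ := by
    refine ⟨fun a i hi => ?_, fun a a' i hl => ?_⟩
    · obtain ⟨x, hx, -⟩ := h2 a i hi
      simp [χ, hx]
    · simp only [χ]
      rcases h3 a a' i hl.1 hl.2.1 hl.2.2 with ⟨e1, e2⟩ | ⟨x, x', e1, e2, -, -⟩
      · rw [e1, e2]
      · rw [e1, e2]
        rfl
  have hnu : ∀ a i, χ (a, i) = true → θ (nu χ a i) = num (B a i) := by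
    intro a i hc
    have h5 : θ (MvPolynomial.X (a, i)) = num (B a i) := MvPolynomial.eval₂Hom_X' _ _ _
    simp only [nu, hc, if_true]
    exact h5
  have hθC : θ.comp (MvPolynomial.C : Λ →+* MP) = f := by
    ext x
    exact MvPolynomial.eval₂Hom_C _ _ _
  have hker : Ideal.span (S χ) ≤ RingHom.ker θ := by
    rw [Ideal.span_le]
    rintro P ((⟨a, j, rfl⟩ | ⟨a, i, hi, rfl⟩) | ⟨a, a', i, hl, hc, hP⟩)
    · show θ _ = 0
      rw [hev, hθC]
      have e1 : (fun i => pt (χ (a, i)) (θ (MvPolynomial.X (a, i)))) = B a :=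
        funext fun i => hpt a i
      rw [e1]
      exact h1 a j
    · show θ _ = 0
      obtain ⟨x, hx, hx'⟩ := h2 a i hi
      rw [Polynomial.hom_eval₂, hnu a _ (hgood.1 a i hi), hx]
      have e : θ.comp (Int.castRingHom MP) = Int.castRingHom k := RingHom.ext_int _ _
      rw [e]
      exact hx'
    · show θ _ = 0
      have hc' : χ (a, Sum.inl (ρ i)) = true := by rw [← hgood.2 a a' i hl, hc]
      rcases h3 a a' i hl.1 hl.2.1 hl.2.2 with ⟨e1, e2⟩ | ⟨x, x', e1, e2, e3, e4⟩
      · simp only [χ, e1, Option.isSome_none, Bool.false_eq_true] at hc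
      · have f1 : num (B a' (Sum.inl i)) = x := by rw [e1]; rfl
        have f2 : num (B a (Sum.inl (ρ i))) = x' := by rw [e2]; rfl
        rcases hP with rfl | rfl
        · rw [ev2_map, hnu a' _ hc, hnu a _ hc', f1, f2, e3]
        · rw [ev2_map, hnu a' _ hc, hnu a _ hc', f1, f2, e4]
  have h4 : θ (MvPolynomial.C (R χ)) = 0 := hker (hR χ hgood)
  have h5 : θ (MvPolynomial.C (R χ)) = f (R χ) := MvPolynomial.eval₂Hom_C _ _ _
  rw [← h5]
  exact h4

end Pool.Agent.NH30.KH
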